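import Pool.Agent.MP_7dc785_an.Defs

-- part MP_7dc785_an.Base
section

/-!
Length of images under locally Lipschitz maps; elementary geometry of the hyperbolic plane.
-/

namespace Pool.Agent.MP_7dc785_an

open Set MeasureTheory Metric Filter Topology UpperHalfPlane
open scoped MatrixGroups ENNReal NNReal

section General

variable {X Y : Type} [MetricSpace X] [MeasurableSpace X] [BorelSpace X]
  [SecondCountableTopology X] [MetricSpace Y] [MeasurableSpace Y] [BorelSpace Y]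

theorem len_loc {f : X → Y} {B : Set X} (hB : MeasurableSet B) {c : ℝ≥0}
    (h : ∀ x ∈ B, ∃ U ∈ 𝓝 x, LipschitzOnWith c f (U ∩ B)) : μH[1] (f '' B) ≤ c * μH[1] B := by
  choose! U hU hL using h
  obtain ⟨T, hTB, hT, hcov⟩ := TopologicalSpace.countable_cover_nhdsWithin
    (f := fun x => interior (U x)) (s := B)
    fun x hx => mem_nhdsWithin_of_mem_nhds (interior_mem_nhds.2 (hU x hx))
  rcases T.eq_empty_or_nonempty with rfl | hne
  · have : B = ∅ := by simpa using hcov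
    simp [this]
  obtain ⟨e, rfl⟩ := hT.exists_eq_range hne
  rw [biUnion_range] at hcov
  have hm : ∀ n, MeasurableSet (disjointed (fun n => interior (U (e n))) n ∩ B) := fun n =>
    (MeasurableSet.disjointed (fun n => isOpen_interior.measurableSet) n).inter hB
  have hu : ⋃ n, disjointed (fun n => interior (U (e n))) n ∩ B = B := by
    rw [← iUnion_inter, iUnion_disjointed]
    exact inter_eq_right.2 hcov
  calc μH[1] (f '' B) = μH[1] (⋃ n, f '' (disjointed (fun n => interior (U (e n))) n ∩ B)) := by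
        rw [← image_iUnion, hu]
    _ ≤ ∑' n, μH[1] (f '' (disjointed (fun n => interior (U (e n))) n ∩ B)) :=
        measure_iUnion_le _
    _ ≤ ∑' n, c * μH[1] (disjointed (fun n => interior (U (e n))) n ∩ B) := by
        refine ENNReal.tsum_le_tsum fun n => ?_
        have := ((hL (e n) (hTB ⟨n, rfl⟩)).mono (inter_subset_inter_left B
          ((disjointed_subset (fun n => interior (U (e n))) n).trans
            interior_subset))).hausdorffMeasure_image_le zero_le_one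
        simpa using this
    _ = c * μH[1] B := by
        rw [ENNReal.tsum_mul_left, ← measure_iUnion _ hm, hu]
        exact fun i j hij => (disjoint_disjointed _ hij).mono inter_subset_left inter_subset_left

theorem len_image {f : X → Y} {E : Set X} {G : X × X → ℝ}
    (hG : ∀ a ∈ E, ∀ b ∈ E, dist (f a) (f b) ≤ G (a, b) * dist a b)
    (hc : ∀ x ∈ E, ContinuousAt G (x, x)) (hp : ∀ x ∈ E, 0 < G (x, x))
    (hm : Measurable fun x => G (x, x)) {B : Set X} (hB : MeasurableSet B) (hBE : B ⊆ E) :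
    μH[1] (f '' B) ≤ ∫⁻ x in B, ENNReal.ofReal (G (x, x)) ∂μH[1] := by
  have key : ∀ q : ℝ≥0, 1 < q →
      μH[1] (f '' B) ≤ q * ∫⁻ x in B, ENNReal.ofReal (G (x, x)) ∂μH[1] := fun q hq => by
    have hq0 : 0 < q := one_pos.trans hq
    obtain ⟨S, hS⟩ : ∃ S : ℤ → Set X, S = fun k => B ∩ (fun x => G (x, x)) ⁻¹'
      Ico ((q : ℝ) ^ k) ((q : ℝ) ^ (k + 1)) := ⟨_, rfl⟩
    have hSm : ∀ k, MeasurableSet (S k) := fun k => by
      rw [hS]; exact hB.inter (hm measurableSet_Ico)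
    have hu : ⋃ k, S k = B := by
      refine Subset.antisymm (iUnion_subset fun k => by rw [hS]; exact inter_subset_left)
        fun x hx => ?_
      obtain ⟨k, hk⟩ := exists_mem_Ico_zpow (hp x (hBE hx)) (NNReal.one_lt_coe.2 hq)
      exact mem_iUnion.2 ⟨k, by rw [hS]; exact ⟨hx, hk⟩⟩
    have hd : Pairwise (Function.onFun Disjoint S) := fun i j hij => by
      rw [hS]
      refine Disjoint.mono inter_subset_right inter_subset_right (Disjoint.preimage _ ?_)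
      exact (zpow_right_strictMono₀ (NNReal.one_lt_coe.2 hq)).monotone.pairwise_disjoint_on_Ico_succ
        hij
    calc μH[1] (f '' B) = μH[1] (⋃ k, f '' S k) := by rw [← image_iUnion, hu]
      _ ≤ ∑' k, μH[1] (f '' S k) := measure_iUnion_le _
      _ ≤ ∑' k, q * ∫⁻ x in S k, ENNReal.ofReal (G (x, x)) ∂μH[1] := by
        refine ENNReal.tsum_le_tsum fun k => (len_loc (hSm k) (c := q ^ (k + 1)) ?_).trans ?_
        · intro x hx
          rw [hS] at hx
          have h1 := (hc x (hBE hx.1)).eventually (gt_mem_nhds hx.2.2)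
          rw [nhds_prod_eq] at h1
          obtain ⟨U, hU, h2⟩ := Filter.mem_prod_self_iff.1 h1
          refine ⟨U, hU, LipschitzOnWith.of_dist_le_mul fun a ha b hb => ?_⟩
          rw [hS] at ha hb
          refine (hG a (hBE ha.2.1) b (hBE hb.2.1)).trans (mul_le_mul_of_nonneg_right ?_
            dist_nonneg)
          rw [NNReal.coe_zpow]
          exact le_of_lt (h2 (mk_mem_prod ha.1 hb.1))
        · rw [zpow_add_one₀ hq0.ne', mul_comm (q ^ k), ENNReal.coe_mul, mul_assoc,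
            ← setLIntegral_const]
          refine mul_le_mul_right (setLIntegral_mono' (hSm k) fun x hx => ?_) _
          rw [hS] at hx
          rw [← ENNReal.ofReal_coe_nnreal, NNReal.coe_zpow]
          exact ENNReal.ofReal_le_ofReal hx.2.1
      _ = _ := by rw [ENNReal.tsum_mul_left, ← lintegral_iUnion hSm hd, hu]
  rcases eq_or_ne (∫⁻ x in B, ENNReal.ofReal (G (x, x)) ∂μH[1]) ⊤ with h | h
  · rw [h]; exact le_top
  have h1 : Tendsto (fun q : ℝ≥0 => (q : ℝ≥0∞) * ∫⁻ x in B, ENNReal.ofReal (G (x, x)) ∂μH[1])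
      (𝓝[>] 1) (𝓝 ((1 : ℝ≥0) * ∫⁻ x in B, ENNReal.ofReal (G (x, x)) ∂μH[1])) :=
    (ENNReal.Tendsto.mul_const (ENNReal.tendsto_coe.2 tendsto_id) (Or.inr h)).mono_left
      nhdsWithin_le_nhds
  simpa using ge_of_tendsto h1 (eventually_nhdsWithin_of_forall key)

theorem lint_image {f : X → Y} {E : Set X} {G : X × X → ℝ} (hf : Measurable f)
    (hE : MeasurableSet E) (hG : ∀ a ∈ E, ∀ b ∈ E, dist (f a) (f b) ≤ G (a, b) * dist a b)
    (hc : ∀ x ∈ E, ContinuousAt G (x, x)) (hp : ∀ x ∈ E, 0 < G (x, x))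
    (hm : Measurable fun x => G (x, x)) {ρ : Y → ℝ≥0∞} (hρ : Measurable ρ) :
    ∫⁻ y in f '' E, ρ y ∂μH[1] ≤ ∫⁻ x in E, ENNReal.ofReal (G (x, x)) * ρ (f x) ∂μH[1] := by
  have h1 : (μH[1] : Measure Y).restrict (f '' E) ≤ Measure.map f
      (((μH[1] : Measure X).restrict E).withDensity fun x => ENNReal.ofReal (G (x, x))) := by
    refine Measure.le_iff.2 fun A hA => ?_
    rw [Measure.restrict_apply hA, Measure.map_apply hf hA, withDensity_apply _ (hf hA),
      Measure.restrict_restrict (hf hA), inter_comm A, ← image_inter_preimage, inter_comm E]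
    exact len_image hG hc hp hm ((hf hA).inter hE) inter_subset_right
  refine (lintegral_mono' h1 le_rfl).trans_eq ?_
  rw [lintegral_map hρ hf]
  exact lintegral_withDensity_eq_lintegral_mul _ hm.ennreal_ofReal (hρ.comp hf)

theorem fin_image {f : X → Y} {E : Set X} {G : X × X → ℝ} (hE : IsCompact E)
    (hG : ∀ a ∈ E, ∀ b ∈ E, dist (f a) (f b) ≤ G (a, b) * dist a b)
    (hc : ∀ x ∈ E, ContinuousAt G (x, x)) (hp : ∀ x ∈ E, 0 < G (x, x))
    (hm : Measurable fun x => G (x, x)) (h : μH[1] E < ⊤) : μH[1] (f '' E) < ⊤ := by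
  obtain ⟨c, hcb⟩ := hE.bddAbove_image (f := fun x => G (x, x)) fun x hx =>
    ((hc x hx).comp (f := fun x => (x, x)) (by fun_prop)).continuousWithinAt
  refine (len_image hG hc hp hm hE.measurableSet subset_rfl).trans_lt ?_
  refine lt_of_le_of_lt (setLIntegral_mono' hE.measurableSet (g := fun _ => ENNReal.ofReal c)
    fun x hx => ENNReal.ofReal_le_ofReal (hcb ⟨x, hx, rfl⟩)) ?_
  rw [setLIntegral_const]
  exact ENNReal.mul_lt_top ENNReal.ofReal_lt_top h

end General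

/-- first exit of a path from an open set -/
theorem first_exit {X : Type} [TopologicalSpace X] {γ : ℝ → X} {a b : ℝ} (hab : a ≤ b)
    (hγ : ContinuousOn γ (Icc a b)) {U : Set X} (hU : IsOpen U) (ha : γ a ∈ U) (hb : γ b ∉ U) :
    ∃ c, a < c ∧ c ≤ b ∧ γ c ∉ U ∧ γ '' Icc a c ⊆ closure U := by
  have hc : IsClosed (Icc a b ∩ γ ⁻¹' Uᶜ) :=
    hγ.preimage_isClosed_of_isClosed isClosed_Icc hU.isClosed_compl
  have hne : (Icc a b ∩ γ ⁻¹' Uᶜ).Nonempty := ⟨b, right_mem_Icc.2 hab, hb⟩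
  have hbd : BddBelow (Icc a b ∩ γ ⁻¹' Uᶜ) := ⟨a, fun x hx => hx.1.1⟩
  have hm := hc.csInf_mem hne hbd
  have hlt := lt_of_le_of_ne hm.1.1 fun h => hm.2 (h ▸ ha)
  refine ⟨_, hlt, hm.1.2, hm.2, ?_⟩
  rw [← closure_Ico hlt.ne]
  refine ((ContinuousOn.image_closure ?_)).trans (closure_mono ?_)
  · rw [closure_Ico hlt.ne]
    exact hγ.mono (Icc_subset_Icc_right hm.1.2)
  · rintro _ ⟨s, ⟨h1, h2⟩, rfl⟩
    by_contra h
    exact (csInf_le hbd ⟨⟨h1, h2.le.trans hm.1.2⟩, h⟩).not_gt h2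

/-! ### The hyperbolic plane -/

/-- the point `x + i y` -/
def pt (x y : ℝ) (h : 0 < y) : ℍ := ⟨⟨x, y⟩, h⟩

@[simp] theorem pt_re (x y : ℝ) (h : 0 < y) : (pt x y h).re = x := rfl
@[simp] theorem pt_im (x y : ℝ) (h : 0 < y) : (pt x y h).im = y := rfl

/-- the points of the imaginary axis -/
noncomputable def ax (s : ℝ) : ℍ := pt 0 (Real.exp s) (Real.exp_pos s)

theorem dist_ax (s t : ℝ) : dist (ax s) (ax t) = |s - t| :=
  (isometry_vertical_line 0).dist_eq s t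

theorem ax_zero : ax 0 = I := by
  ext1
  simp [ax, pt, Complex.ext_iff]

theorem smul_coe (g : SL(2, ℝ)) (z : ℍ) :
    ((g • z : ℍ) : ℂ) = (g 0 0 * z + g 0 1) / (g 1 0 * z + g 1 1) := by
  simpa using coe_specialLinearGroup_apply g z

theorem den_ne (g : SL(2, ℝ)) (z : ℍ) : (g 1 0 : ℂ) * z + g 1 1 ≠ 0 := by
  simpa [denom] using denom_ne_zero (g : GL (Fin 2) ℝ) z

/-- rotations about `i` -/
noncomputable def rot (θ : ℝ) : SL(2, ℝ) :=
  ⟨!![Real.cos θ, Real.sin θ; -Real.sin θ, Real.cos θ], by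
    rw [Matrix.det_fin_two_of]; nlinarith [Real.sin_sq_add_cos_sq θ]⟩

theorem rot_I (θ : ℝ) : rot θ • I = I := by
  ext1
  rw [smul_coe, div_eq_iff (den_ne _ _)]
  simp [rot]
  linear_combination (Complex.sin θ) * Complex.I_mul_I

theorem rot_half (z : ℍ) : ((rot (Real.pi / 2) • z : ℍ) : ℂ) = -(z : ℂ)⁻¹ := by
  rw [smul_coe]
  simp [rot, inv_neg]

theorem exists_norm (z w : ℍ) : ∃ g : SL(2, ℝ), g • I = z ∧ g • ax (dist z w) = w := by
  obtain ⟨h, rfl⟩ := MulAction.exists_smul_eq SL(2, ℝ) I z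
  obtain ⟨w, rfl⟩ := MulAction.surjective h w
  simp only [dist_smul]
  have hr : Continuous rot := by
    refine Continuous.subtype_mk (continuous_matrix fun i j => ?_) _
    fin_cases i <;> fin_cases j <;> simp <;> fun_prop
  have hc : Continuous fun θ => (rot θ • w).re :=
    continuous_re.comp (hr.smul continuous_const)
  obtain ⟨θ, hθ⟩ : ∃ θ, (rot θ • w).re = 0 := by
    have h0 : (rot 0 • w).re = w.re := by
      rw [show rot 0 = 1 by ext i j; fin_cases i <;> fin_cases j <;> simp [rot], one_smul]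
    have h1 : (rot (Real.pi / 2) • w).re = -(w.re / Complex.normSq w) := by
      rw [← coe_re, rot_half]; simp
    have h2 : 0 < Complex.normSq w := Complex.normSq_pos.2 w.ne_zero
    rcases le_total 0 w.re with h | h
    · exact intermediate_value_univ (Real.pi / 2) 0 hc
        ⟨by rw [h1]; exact neg_nonpos.2 (by positivity), by rw [h0]; exact h⟩
    · exact intermediate_value_univ 0 (Real.pi / 2) hc
        ⟨by rw [h0]; exact h, by rw [h1]; exact neg_nonneg.2 (div_nonpos_of_nonpos_of_nonneg h h2.le)⟩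
  obtain ⟨s, hs⟩ : ∃ s, rot θ • w = ax s := ⟨Real.log (rot θ • w).im, by
    ext1
    exact Complex.ext hθ (Real.exp_log (im_pos _)).symm⟩
  have hd : dist I w = |s| := by
    rw [← dist_smul (rot θ), rot_I, hs, ← ax_zero, dist_ax, zero_sub, abs_neg]
  rcases le_total 0 s with h0 | h0
  · refine ⟨h * (rot θ)⁻¹, ?_, ?_⟩
    · rw [mul_smul, inv_smul_eq_iff.2 (rot_I θ).symm]
    · rw [mul_smul, hd, abs_of_nonneg h0, ← hs, inv_smul_smul]
  · refine ⟨h * (rot θ)⁻¹ * rot (Real.pi / 2), ?_, ?_⟩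
    · rw [mul_smul, mul_smul, rot_I, inv_smul_eq_iff.2 (rot_I θ).symm]
    · have : rot (Real.pi / 2) • ax (-s) = ax s := by
        ext1
        rw [rot_half]
        simp [ax, pt, Complex.ext_iff, Real.exp_neg, Complex.normSq_apply]
        field_simp
      rw [mul_smul, mul_smul, hd, abs_of_nonpos h0, this, ← hs, inv_smul_smul]

theorem two_point {z w z' w' : ℍ} (h : dist z w = dist z' w') :
    ∃ g : SL(2, ℝ), g • z = z' ∧ g • w = w' := by
  obtain ⟨g, h1, h2⟩ := exists_norm z w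
  obtain ⟨g', h3, h4⟩ := exists_norm z' w'
  refine ⟨g' * g⁻¹, ?_, ?_⟩
  · rw [mul_smul, inv_smul_eq_iff.2 h1.symm, h3]
  · rw [mul_smul, inv_smul_eq_iff.2 h2.symm, h, h4]

theorem vol_smul (g : SL(2, ℝ)) (s : Set ℍ) : volume ((g • ·) '' s) = volume s :=
  measure_smul volume (g : GL (Fin 2) ℝ) s

theorem vol_ball (z : ℍ) (r : ℝ) : volume (ball z r) = volume (ball I r) := by
  obtain ⟨g, rfl⟩ := MulAction.exists_smul_eq SL(2, ℝ) I z
  rw [← vol_smul g (ball I r), image_smul, Metric.smul_ball]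

/-- a rectangle -/
def box (a b c d : ℝ) : Set ℍ := {z | z.re ∈ Icc a b ∧ z.im ∈ Icc c d}

theorem vol_coe_box (a b : ℝ) {c : ℝ} (hc : 0 < c) (d : ℝ) :
    volume ((↑) '' box a b c d : Set ℂ) = ENNReal.ofReal (b - a) * ENNReal.ofReal (d - c) := by
  have : ((↑) '' box a b c d : Set ℂ) = Complex.measurableEquivRealProd ⁻¹' (Icc a b ×ˢ Icc c d) := by
    ext z
    refine ⟨?_, fun h => ⟨⟨z, hc.trans_le h.2.1⟩, h, rfl⟩⟩
    rintro ⟨w, hw, rfl⟩
    exact hw
  rw [this, Complex.volume_preserving_equiv_real_prod.measure_preimage_equiv,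
    Measure.volume_eq_prod, Measure.prod_prod, Real.volume_Icc, Real.volume_Icc]

theorem measurableSet_box (a b c d : ℝ) : MeasurableSet (box a b c d) :=
  (continuous_re.measurable measurableSet_Icc).inter (continuous_im.measurable measurableSet_Icc)

theorem dens_eq {z : ℂ} (hz : 0 < z.im) :
    (((1 / ‖z.im‖₊) ^ 2 : ℝ≥0) : ℝ≥0∞) = ENNReal.ofReal (1 / z.im ^ 2) := by
  rw [← ENNReal.ofReal_coe_nnreal]
  simp [abs_of_pos hz]

theorem vol_box_le {a b c d : ℝ} (hab : a ≤ b) (hc : 0 < c) :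
    volume (box a b c d) ≤ ENNReal.ofReal ((b - a) * (d - c) / c ^ 2) := by
  rw [volume_eq_lintegral, mul_comm, mul_div_assoc, mul_comm, div_eq_mul_one_div, mul_comm (b - a),
    ENNReal.ofReal_mul (by have := sub_nonneg.2 hab; positivity),
    ENNReal.ofReal_mul (by positivity), mul_assoc, ← vol_coe_box a b hc, ← setLIntegral_const]
  refine setLIntegral_mono' (measurableEmbedding_coe.measurableSet_image.2
    (measurableSet_box _ _ _ _)) ?_
  rintro _ ⟨z, hz, rfl⟩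
  rw [dens_eq z.2]
  refine ENNReal.ofReal_le_ofReal ?_
  have := hz.2.1
  gcongr
  exact this

theorem le_vol_box {a b c d : ℝ} (hab : a ≤ b) (hc : 0 < c) :
    ENNReal.ofReal ((b - a) * (d - c) / d ^ 2) ≤ volume (box a b c d) := by
  rw [volume_eq_lintegral, mul_comm, mul_div_assoc, mul_comm, div_eq_mul_one_div, mul_comm (b - a),
    ENNReal.ofReal_mul (by have := sub_nonneg.2 hab; positivity),
    ENNReal.ofReal_mul (by positivity), mul_assoc, ← vol_coe_box a b hc, ← setLIntegral_const]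
  refine setLIntegral_mono' (measurableEmbedding_coe.measurableSet_image.2
    (measurableSet_box _ _ _ _)) ?_
  rintro _ ⟨z, hz, rfl⟩
  rw [dens_eq z.2]
  refine ENNReal.ofReal_le_ofReal ?_
  have h1 := hz.2.2
  have h2 := z.im_pos
  gcongr
  exact h1

theorem cosh_I (z : ℍ) : Real.cosh (dist z I) = (z.re ^ 2 + z.im ^ 2 + 1) / (2 * z.im) := by
  rw [cosh_dist']
  simp

theorem vol_closedBall_le (r : ℝ) :
    volume (closedBall I r) ≤ ENNReal.ofReal (48 * Real.exp r) := by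
  have ha := Real.exp_pos r
  have hsub : closedBall I r ⊆ ⋃ k : ℕ, box (-(4 * 2 ^ k)) (4 * 2 ^ k) (4 ^ k / Real.exp r)
      (4 ^ (k + 1) / Real.exp r) := fun z hz => by
    have h1 := mem_closedBall.1 hz
    have h2 : 1 ≤ z.im * Real.exp r := by
      have := im_le_im_mul_exp_dist I z
      rw [I_im, dist_comm] at this
      exact this.trans (by have := z.im_pos; gcongr)
    obtain ⟨k, hk1, hk2⟩ := exists_nat_pow_near h2 (by norm_num : (1 : ℝ) < 4)
    refine mem_iUnion.2 ⟨k, abs_le.1 ?_, (div_le_iff₀ ha).2 hk1, (le_div_iff₀ ha).2 hk2.le⟩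
    have h3 : Real.cosh (dist z I) ≤ Real.exp r := by
      rw [Real.cosh_eq]
      have := Real.exp_le_exp.2 h1
      have : Real.exp (-dist z I) ≤ Real.exp r :=
        Real.exp_le_exp.2 (by linarith [dist_nonneg (x := z) (y := I)])
      linarith
    rw [cosh_I, div_le_iff₀ (by have := z.im_pos; positivity)] at h3
    refine abs_le_of_sq_le_sq' ?_ (by positivity) |> abs_le.2
    have h4 : ((4 : ℝ) * 2 ^ k) ^ 2 = 4 * 4 ^ (k + 1) := by
      rw [mul_pow, ← pow_mul, mul_comm k 2, pow_mul]; norm_num; ring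
    rw [h4]
    nlinarith [sq_nonneg z.im, pow_pos (by norm_num : (0 : ℝ) < 4) (k + 1)]
  refine (measure_mono hsub).trans ((measure_iUnion_le _).trans ?_)
  have h5 : ∀ k : ℕ, volume (box (-(4 * 2 ^ k)) (4 * 2 ^ k) (4 ^ k / Real.exp r)
      (4 ^ (k + 1) / Real.exp r)) ≤ ENNReal.ofReal (24 * Real.exp r * (1 / 2) ^ k) := fun k => by
    refine (vol_box_le (by have : (0 : ℝ) < 2 ^ k := by positivity
                           linarith) (by positivity)).trans_eq ?_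
    congr 1
    rw [show (4 : ℝ) = 2 * 2 by norm_num, mul_pow, mul_pow, one_div, inv_pow]
    field_simp
    ring
  refine (ENNReal.tsum_le_tsum h5).trans_eq ?_
  rw [← ENNReal.ofReal_tsum_of_nonneg (fun k => by positivity)
    (summable_geometric_two.mul_left _), tsum_mul_left, tsum_geometric_two]
  congr 1
  ring

theorem vol_ball_pos {r : ℝ} (hr : 0 < r) : 0 < volume (ball I r) := by
  obtain ⟨δ, hδ, h⟩ : ∃ δ > 0, box 0 δ 1 (1 + δ) ⊆ ball I r := by
    obtain ⟨δ, hδ, h⟩ := Metric.mem_nhds_iff.1 (isOpenEmbedding_coe.image_mem_nhds.2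
      (ball_mem_nhds I hr))
    refine ⟨δ / 3, by positivity, fun z hz => ?_⟩
    suffices hz' : (z : ℂ) ∈ ball (I : ℍ).coe δ by
      obtain ⟨w, hw, he⟩ := h hz'
      exact UpperHalfPlane.ext he ▸ hw
    rw [mem_ball, Complex.dist_eq]
    refine (Complex.norm_le_abs_re_add_abs_im _).trans_lt ?_
    obtain ⟨⟨h1, h2⟩, h3, h4⟩ := hz
    simp only [Complex.sub_re, Complex.sub_im, coe_re, coe_im, I_re, I_im, sub_zero]
    rw [abs_of_nonneg h1, abs_of_nonneg (by linarith)]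
    linarith
  refine lt_of_lt_of_le ?_ ((le_vol_box hδ.le one_pos).trans (measure_mono h))
  rw [ENNReal.ofReal_pos, sub_zero, add_sub_cancel_left]
  positivity

theorem le_vol_ball {r₀ : ℝ} (h₀ : 0 < r₀) :
    ∃ c > 0, ∀ r, r₀ ≤ r → ENNReal.ofReal (c * Real.exp r) ≤ volume (ball I r) := by
  have hf : volume (ball I r₀) ≠ ⊤ := measure_ball_lt_top.ne
  have hp := ENNReal.toReal_pos (vol_ball_pos h₀).ne' hf
  refine ⟨min (1 / 12) ((volume (ball I r₀)).toReal / Real.exp 2), by positivity,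
    fun r hr => ?_⟩
  have ha := Real.exp_pos r
  rcases le_total r 2 with h | h
  · refine le_trans ?_ (measure_mono (ball_subset_ball hr))
    rw [← ENNReal.ofReal_toReal hf, ENNReal.toReal_ofReal hp.le]
    refine ENNReal.ofReal_le_ofReal ?_
    calc _ ≤ (volume (ball I r₀)).toReal / Real.exp 2 * Real.exp 2 := by
          gcongr
          exact min_le_right _ _
      _ = _ := by field_simp
  · have h6 : 6 ≤ Real.exp r := by
      have := Real.exp_one_gt_d9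
      have h2 := Real.exp_le_exp.2 h
      rw [show (2 : ℝ) = 1 + 1 by norm_num, Real.exp_add] at h2
      nlinarith
    have hsub : box (-(1 / 2)) (1 / 2) (3 / Real.exp r) (6 / Real.exp r) ⊆ ball I r := by
      rintro z ⟨⟨h1, h2⟩, h3, h4⟩
      have hy := z.im_pos
      have h5 : z.im ≤ 1 := h4.trans ((div_le_one ha).2 h6)
      rw [div_le_iff₀ ha] at h3
      have h7 : Real.cosh (dist z I) < Real.cosh r := by
        rw [cosh_I, Real.cosh_eq, div_lt_div_iff₀ (by positivity) two_pos]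
        nlinarith [mul_pos (Real.exp_pos (-r)) hy]
      rw [Real.cosh_lt_cosh, abs_of_nonneg dist_nonneg, abs_of_nonneg (by linarith)] at h7
      exact h7
    refine le_trans ?_ ((le_vol_box (by norm_num) (by positivity)).trans (measure_mono hsub))
    refine ENNReal.ofReal_le_ofReal ((mul_le_mul_of_nonneg_right (min_le_left _ _) ha.le).trans_eq ?_)
    field_simp
    ring

end Pool.Agent.MP_7dc785_an

end

-- part MP_7dc785_an.Push
section

/-!
Transport of densities along conformal embeddings of the hyperbolic plane into itself.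
-/

namespace Pool.Agent.MP_7dc785_an

open Set MeasureTheory Metric Filter Topology UpperHalfPlane
open scoped MatrixGroups ENNReal NNReal

/-- a measurable left inverse of the inclusion -/
noncomputable def oc : ℂ → ℍ := Function.extend (↑) id fun _ => I

theorem oc_coe (z : ℍ) : oc z = z :=
  measurableEmbedding_coe.injective.extend_apply id (fun _ => I) z

theorem coe_oc {w : ℂ} (h : 0 < w.im) : (oc w : ℂ) = w := congrArg _ (oc_coe ⟨w, h⟩)

theorem im_oc {w : ℂ} (h : 0 < w.im) : (oc w).im = w.im := by rw [← coe_im, coe_oc h]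

theorem measurable_oc : Measurable oc :=
  measurableEmbedding_coe.measurable_extend measurable_id measurable_const

theorem measurableSet_pos : MeasurableSet {w : ℂ | 0 < w.im} :=
  (isOpen_lt continuous_const Complex.continuous_im).measurableSet

theorem lint_vol {F : ℍ → ℝ≥0∞} (hF : Measurable F) :
    ∫⁻ z, F z = ∫⁻ w, {w : ℂ | 0 < w.im}.indicator
      (fun w => ENNReal.ofReal (1 / w.im ^ 2) * F (oc w)) w := by
  have hr : range ((↑) : ℍ → ℂ) = {w : ℂ | 0 < w.im} := by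
    ext w
    exact ⟨by rintro ⟨z, rfl⟩; exact z.2, fun h => ⟨⟨w, h⟩, rfl⟩⟩
  rw [lintegral_indicator measurableSet_pos, ← hr, ← measurableEmbedding_coe.map_comap,
    measurableEmbedding_coe.lintegral_map, volume_def,
    lintegral_withDensity_eq_lintegral_mul _ _ hF]
  · refine lintegral_congr fun z => ?_
    rw [Pi.mul_apply, oc_coe, ← ENNReal.ofReal_coe_nnreal]
    simp
  · refine Measurable.coe_nnreal_ennreal (Measurable.pow_const (Measurable.const_div ?_ _) _)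
    exact (continuous_im.subtype_mk _).measurable

/-- densities can be pushed forward along `f` without increasing the area integral -/
structure PF (f : ℍ → ℍ) : Prop where
  emb : IsOpenEmbedding f
  fin : ∀ E, IsCompact E → μH[1] (f '' E) < ⊤ → μH[1] E < ⊤
  push : ∀ ρ : ℍ → ℝ≥0∞, Measurable ρ → ∃ ρ' : ℍ → ℝ≥0∞, Measurable ρ' ∧
    ∫⁻ z, ρ' z ^ 2 ≤ ∫⁻ z, ρ z ^ 2 ∧
    ∀ E, IsCompact E → ∫⁻ z in E, ρ z ∂μH[1] ≤ ∫⁻ z in f '' E, ρ' z ∂μH[1]

theorem PF.comp {f g : ℍ → ℍ} (hf : PF f) (hg : PF g) : PF (f ∘ g) := by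
  refine ⟨hf.emb.comp hg.emb, fun E hE h => hg.fin E hE (hf.fin _ (hE.image hg.emb.continuous)
    (by rwa [← image_comp])), fun ρ hρ => ?_⟩
  obtain ⟨ρ₁, h1, h2, h3⟩ := hg.push ρ hρ
  obtain ⟨ρ₂, h4, h5, h6⟩ := hf.push ρ₁ h1
  refine ⟨ρ₂, h4, h5.trans h2, fun E hE => (h3 E hE).trans ?_⟩
  rw [image_comp]
  exact h6 _ (hE.image hg.emb.continuous)

theorem pf_of {f h : ℍ → ℍ} {G : ℍ × ℍ → ℝ} (hf : IsOpenEmbedding f) (hh : Measurable h)
    (hl : ∀ z, h (f z) = z)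
    (hG : ∀ a b, dist a b ≤ G (f a, f b) * dist (f a) (f b))
    (hc : ∀ x, ContinuousAt G (f x, f x)) (hp : ∀ x, 0 < G (f x, f x))
    (hm : Measurable fun x => G (x, x))
    (ha : ∀ ρ : ℍ → ℝ≥0∞, Measurable ρ → ∫⁻ z, ((range f).indicator
      (fun z => ENNReal.ofReal (G (z, z)) * ρ (h z)) z) ^ 2 ≤ ∫⁻ z, ρ z ^ 2) : PF f := by
  have e : ∀ E, h '' (f '' E) = E := fun E => by
    rw [image_image]; simp only [hl, image_id']
  have h1 : ∀ E : Set ℍ, ∀ a ∈ f '' E, ∀ b ∈ f '' E, dist (h a) (h b) ≤ G (a, b) * dist a b := by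
    rintro E _ ⟨a, -, rfl⟩ _ ⟨b, -, rfl⟩
    rw [hl, hl]
    exact hG a b
  have h2 : ∀ E : Set ℍ, ∀ x ∈ f '' E, ContinuousAt G (x, x) := by
    rintro E _ ⟨a, -, rfl⟩
    exact hc a
  have h3 : ∀ E : Set ℍ, ∀ x ∈ f '' E, 0 < G (x, x) := by
    rintro E _ ⟨a, -, rfl⟩
    exact hp a
  refine ⟨hf, fun E hE hfin => ?_, fun ρ hρ => ⟨_, Measurable.indicator
    (hm.ennreal_ofReal.mul (hρ.comp hh)) hf.isOpen_range.measurableSet, ha ρ hρ, fun E hE => ?_⟩⟩
  · rw [← e E]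
    exact fin_image (hE.image hf.continuous) (h1 E) (h2 E) (h3 E) hm hfin
  · have hE' := (hE.image hf.continuous).measurableSet
    conv_lhs => rw [← e E]
    refine (lint_image hh hE' (h1 E) (h2 E) (h3 E) hm hρ).trans_eq ?_
    refine setLIntegral_congr_fun hE' fun z hz => ?_
    rw [indicator_of_mem (image_subset_range _ _ hz)]
    rfl

theorem pf_smul (g : SL(2, ℝ)) : PF (g • ·) := by
  refine pf_of (h := (g⁻¹ • ·)) (G := fun _ => 1) (Homeomorph.smul g).isOpenEmbedding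
    (continuous_const_smul _).measurable (fun z => inv_smul_smul g z)
    (fun a b => by rw [dist_smul, one_mul]) (fun _ => continuousAt_const) (fun _ => one_pos)
    measurable_const fun ρ hρ => ?_
  rw [(MulAction.surjective g).range_eq]
  simp only [indicator_univ, ENNReal.ofReal_one, one_mul]
  exact ((measurePreserving_smul ((g⁻¹ : SL(2, ℝ)) : GL (Fin 2) ℝ) volume).lintegral_comp
    (hρ.pow_const 2)).le

/-- translation by `i t` -/
noncomputable def tau (t : ℝ) (z : ℍ) : ℍ := oc (z + t * Complex.I)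

theorem coe_tau {t : ℝ} (ht : 0 < t) (z : ℍ) : (tau t z : ℂ) = z + t * Complex.I :=
  coe_oc (by have := z.im_pos; simp; linarith)

theorem im_tau {t : ℝ} (ht : 0 < t) (z : ℍ) : (tau t z).im = z.im + t := by
  rw [← coe_im, coe_tau ht]; simp

theorem re_tau {t : ℝ} (ht : 0 < t) (z : ℍ) : (tau t z).re = z.re := by
  rw [← coe_re, coe_tau ht]; simp

theorem pf_tau {t : ℝ} (ht : 0 < t) : PF (tau t) := by
  have hG : ∀ a : ℍ, (tau t a).im * Real.exp (dist (tau t a) (tau t a)) /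
      √(((tau t a).im - t) * ((tau t a).im - t)) = (tau t a).im / a.im := fun a => by
    rw [dist_self, Real.exp_zero, mul_one, im_tau ht, add_sub_cancel_right,
      Real.sqrt_mul_self a.im_pos.le]
  refine pf_of (h := fun w => oc (w - t * Complex.I))
    (G := fun p => p.2.im * Real.exp (dist p.1 p.2) / √((p.1.im - t) * (p.2.im - t))) ?_
    (measurable_oc.comp (by fun_prop)) (fun z => by rw [coe_tau ht, add_sub_cancel_right, oc_coe])
    (fun a b => ?_) (fun x => ?_) (fun x => ?_) ?_ fun ρ hρ => ?_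
  · refine IsOpenEmbedding.of_comp _ isOpenEmbedding_coe ?_
    rw [show (↑) ∘ tau t = (Homeomorph.addRight (t * Complex.I)) ∘ (↑) from funext (coe_tau ht)]
    exact (Homeomorph.isOpenEmbedding _).comp isOpenEmbedding_coe
  · refine (dist_le_dist_coe_div_sqrt a b).trans ?_
    have h1 := dist_coe_le (tau t a) (tau t b)
    rw [coe_tau ht, coe_tau ht, dist_add_right] at h1
    simp only [im_tau ht, add_sub_cancel_right] at h1 ⊢
    rw [div_mul_eq_mul_div]
    refine div_le_div_of_nonneg_right (h1.trans ?_) (Real.sqrt_nonneg _)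
    rw [mul_assoc]
    refine mul_le_mul_of_nonneg_left ?_ (by have := b.im_pos; linarith)
    generalize dist (tau t a) (tau t b) = d
    have h2 := Real.add_one_le_exp (-d)
    have h3 : Real.exp d * Real.exp (-d) = 1 := by rw [← Real.exp_add]; simp
    nlinarith [Real.exp_pos d]
  · refine ContinuousAt.div (by fun_prop) (by fun_prop) ?_
    simp only [im_tau ht, add_sub_cancel_right]
    exact (Real.sqrt_pos.2 (mul_pos x.im_pos x.im_pos)).ne'
  · rw [hG]
    exact div_pos (im_pos _) x.im_pos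
  · exact Measurable.div (by fun_prop) (by fun_prop)
  · have hm : Measurable fun z : ℍ => ((range (tau t)).indicator (fun z : ℍ => ENNReal.ofReal
        (z.im * Real.exp (dist z z) / √((z.im - t) * (z.im - t))) *
          ρ (oc (z - t * Complex.I))) z) ^ 2 := by
      refine Measurable.pow_const (Measurable.indicator (Measurable.mul (Measurable.ennreal_ofReal
        (Measurable.div (by fun_prop) (by fun_prop))) (hρ.comp (measurable_oc.comp (by fun_prop))))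
        ?_) 2
      have : range (tau t) = {z | t < z.im} := by
        ext z
        refine ⟨?_, fun h => ⟨oc (z - t * Complex.I), ?_⟩⟩
        · rintro ⟨w, rfl⟩
          have := w.im_pos
          rw [mem_ofPred, im_tau ht]
          linarith
        · ext1
          rw [coe_tau ht, coe_oc (by simpa using h), sub_add_cancel]
      rw [this]
      exact (isOpen_lt continuous_const continuous_im).measurableSet
    rw [lint_vol hm, lint_vol (hρ.pow_const 2)]
    refine le_trans (lintegral_mono fun w => ?_)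
      (lintegral_sub_right_eq_self _ (t * Complex.I)).le
    by_cases h0 : 0 < w.im
    · rw [indicator_of_mem (show w ∈ {w : ℂ | 0 < w.im} from h0)]
      by_cases h1 : oc w ∈ range (tau t)
      · obtain ⟨a, ha⟩ := h1
        have h2 : w = a + t * Complex.I := by rw [← coe_tau ht, ha, coe_oc h0]
        have h3 : w - t * Complex.I = a := by rw [h2, add_sub_cancel_right]
        rw [indicator_of_mem (show oc w ∈ range (tau t) from ⟨a, ha⟩), coe_oc h0, ← ha, hG, h3,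
          indicator_of_mem (show (a : ℂ) ∈ {w : ℂ | 0 < w.im} from a.2), mul_pow, ← mul_assoc,
          ← ENNReal.ofReal_pow (div_pos (im_pos _) a.im_pos).le,
          ← ENNReal.ofReal_mul (by positivity), ha, im_oc h0]
        refine le_of_eq (congrArg (fun x => ENNReal.ofReal x * _) ?_)
        have := a.im_pos
        rw [coe_im]
        field_simp
      · rw [indicator_of_notMem h1]
        simp
    · rw [indicator_of_notMem (show w ∉ {w : ℂ | 0 < w.im} from h0)]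
      exact zero_le

/-- the conformal contraction -/
noncomputable def con (t : ℝ) : ℍ → ℍ :=
  tau t ∘ (rot (Real.pi / 2) • ·) ∘ tau t ∘ (rot (Real.pi / 2) • ·)

theorem pf_con {t : ℝ} (ht : 0 < t) : PF (con t) :=
  (pf_tau ht).comp ((pf_smul _).comp ((pf_tau ht).comp (pf_smul _)))

theorem con_mem {t : ℝ} (ht : 0 < t) (h1 : t ≤ 1) (z : ℍ) :
    con t z ∈ closedBall I (Real.log (3 / t)) := by
  obtain ⟨v, hv⟩ : ∃ v, v = tau t (rot (Real.pi / 2) • z) := ⟨_, rfl⟩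
  obtain ⟨u, hu⟩ : ∃ u, u = rot (Real.pi / 2) • v := ⟨_, rfl⟩
  have e : con t z = tau t u := by rw [hu, hv]; rfl
  have h2 : t ≤ v.im := by rw [hv, im_tau ht]; linarith [im_pos (rot (Real.pi / 2) • z)]
  have hn : 0 < Complex.normSq v := Complex.normSq_pos.2 v.ne_zero
  have h3 : t * (u.re ^ 2 + u.im ^ 2) ≤ u.im := by
    have a1 : u.re ^ 2 + u.im ^ 2 = (Complex.normSq v)⁻¹ := by
      rw [← Complex.normSq_inv, ← Complex.normSq_neg, ← rot_half, ← hu, Complex.normSq_apply]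
      simp [sq]
    have a2 : u.im = v.im / Complex.normSq v := by
      rw [← coe_im, hu, rot_half]; simp [neg_div]
    rw [a1, a2, ← div_eq_mul_inv]
    gcongr
  have hy := u.im_pos
  have h4 : Real.cosh (dist (tau t u) I) ≤ 3 / (2 * t) := by
    rw [cosh_I, im_tau ht, re_tau ht, div_le_div_iff₀ (by positivity) (by positivity)]
    nlinarith [mul_pos ht hy, mul_nonneg (mul_pos ht hy).le (sub_nonneg.2 h1),
      mul_nonneg (mul_pos ht ht).le (sub_nonneg.2 h1), mul_nonneg hy.le (sub_nonneg.2 h1),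
      mul_nonneg ht.le (sub_nonneg.2 h1)]
  rw [e, mem_closedBall, Real.le_log_iff_exp_le (by positivity)]
  rw [Real.cosh_eq] at h4
  have h5 := Real.exp_pos (-dist (tau t u) I)
  have h6 : 3 / (2 * t) = 3 / t / 2 := by field_simp
  linarith

theorem con_ax {t : ℝ} (ht : 0 < t) (s : ℝ) :
    (con t (ax s)).re = 0 ∧ (con t (ax s)).im = 1 / (Real.exp (-s) + t) + t := by
  have key : ∀ z : ℍ, z.re = 0 → (tau t (rot (Real.pi / 2) • z)).re = 0 ∧
      (tau t (rot (Real.pi / 2) • z)).im = 1 / z.im + t := fun z hz => by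
    have := z.im_pos
    rw [re_tau ht, im_tau ht, ← coe_re, ← coe_im, rot_half]
    simp [hz, Complex.normSq_apply]
    field_simp
  obtain ⟨h1, h2⟩ := key (ax s) rfl
  obtain ⟨h3, h4⟩ := key _ h1
  refine ⟨h3, h4.trans ?_⟩
  rw [h2, Real.exp_neg, one_div (ax s).im]
  rfl

theorem con_dist {t : ℝ} (ht : 0 < t) (h1 : t ≤ 1) {D : ℝ} (hD : 0 ≤ D) :
    D - 2 * t * Real.exp D ≤ dist (con t (ax D)) (con t (ax 0)) := by
  obtain ⟨a1, a2⟩ := con_ax ht D
  obtain ⟨b1, b2⟩ := con_ax ht 0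
  rw [dist_of_re_eq (a1.trans b1.symm), a2, b2, Real.dist_eq, neg_zero, Real.exp_zero]
  refine le_trans ?_ (le_abs_self _)
  have e1 := Real.exp_pos D
  have e2 : 1 ≤ Real.exp D := Real.one_le_exp hD
  have c1 : Real.log (1 / (1 + t) + t) ≤ t * Real.exp D := by
    refine (Real.log_le_sub_one_of_pos (by positivity)).trans ?_
    have : 1 / (1 + t) ≤ 1 := (div_le_one (by positivity)).2 (by linarith)
    nlinarith
  have c2 : D - t * Real.exp D ≤ Real.log (1 / (Real.exp (-D) + t) + t) := by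
    rw [Real.le_log_iff_exp_le (by positivity)]
    refine le_trans ?_ (le_add_of_nonneg_right ht.le)
    rw [le_div_iff₀ (by positivity), Real.exp_sub, Real.exp_neg, div_mul_eq_mul_div,
      div_le_one (Real.exp_pos _), mul_add, mul_inv_cancel₀ e1.ne']
    linarith [Real.add_one_le_exp (t * Real.exp D)]
  linarith

end Pool.Agent.MP_7dc785_an

end

-- part MP_7dc785_an.Mod
section

/-!
Capacity of continua relative to the ideal boundary; quasiconformal maps with dilatation close to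
one almost preserve hyperbolic distances.
-/

namespace Pool.Agent.MP_7dc785_an

open Set MeasureTheory Metric Filter Topology UpperHalfPlane
open scoped MatrixGroups ENNReal NNReal

theorem IsArc.isCompact {α : Set ℍ} (h : IsArc α) : IsCompact α := by
  obtain ⟨γ, a, b, -, h1, -, rfl⟩ := h
  exact isCompact_Icc.image_of_continuousOn h1

theorem IsArc.isPreconnected {α : Set ℍ} (h : IsArc α) : IsPreconnected α := by
  obtain ⟨γ, a, b, -, h1, -, rfl⟩ := h
  exact isPreconnected_Icc.image γ h1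

theorem IsArc.image {α : Set ℍ} (h : IsArc α) (φ : ℍ ≃ₜ ℍ) : IsArc (φ '' α) := by
  obtain ⟨γ, a, b, h0, h1, h2, rfl⟩ := h
  exact ⟨φ ∘ γ, a, b, h0, φ.continuous.comp_continuousOn h1, φ.injective.comp_injOn h2,
    (image_comp _ _ _).symm⟩

theorem IsArc.sub {α U : Set ℍ} (h : IsArc α) (hU : IsOpen U) {p : ℍ} (hp : p ∈ α) (hpU : p ∈ U)
    (hq : ¬ α ⊆ U) : ∃ β, IsArc β ∧ β ⊆ α ∧ p ∈ β ∧ β ⊆ closure U ∧ ¬ β ⊆ U := by
  have key : ∀ (γ : ℝ → ℍ) (s s' : ℝ), s ≤ s' → ContinuousOn γ (Icc s s') → InjOn γ (Icc s s') →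
      γ s ∈ U → γ s' ∉ U →
      ∃ β, IsArc β ∧ β ⊆ γ '' Icc s s' ∧ γ s ∈ β ∧ β ⊆ closure U ∧ ¬ β ⊆ U := by
    intro γ s s' h1 h2 h3 h4 h5
    obtain ⟨c, c1, c2, c3, c4⟩ := first_exit h1 h2 hU h4 h5
    have hs : Icc s c ⊆ Icc s s' := Icc_subset_Icc_right c2
    exact ⟨_, ⟨γ, s, c, c1, h2.mono hs, h3.mono hs, rfl⟩, image_mono hs,
      ⟨s, left_mem_Icc.2 c1.le, rfl⟩, c4, fun h => c3 (h ⟨c, right_mem_Icc.2 c1.le, rfl⟩)⟩
  obtain ⟨γ, a, b, -, h1, h2, rfl⟩ := h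
  obtain ⟨s, hs, rfl⟩ := hp
  obtain ⟨_, ⟨s', hs', rfl⟩, hq⟩ := not_subset.1 hq
  rcases le_total s s' with h | h
  · have hsub := Icc_subset_Icc hs.1 hs'.2
    obtain ⟨β, b1, b2, b3⟩ := key γ s s' h (h1.mono hsub) (h2.mono hsub) hpU hq
    exact ⟨β, b1, b2.trans (image_mono hsub), b3⟩
  · have hm : MapsTo (fun x : ℝ => -x) (Icc (-s) (-s')) (Icc a b) := fun x hx =>
      ⟨by linarith [hx.2, hs'.1], by linarith [hx.1, hs.2]⟩
    obtain ⟨β, b1, b2, b3, b4⟩ := key (γ ∘ fun x => -x) (-s) (-s') (neg_le_neg h)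
      (h1.comp continuous_neg.continuousOn hm) (h2.comp neg_injective.injOn hm)
      (by simpa using hpU) (by simpa using hq)
    refine ⟨β, b1, b2.trans ?_, by simpa using b3, b4⟩
    rw [image_comp]
    exact image_mono hm.image_subset

theorem IsArc.pull {β : Set ℍ} (h : IsArc β) {f : ℍ → ℍ} (hf : IsEmbedding f)
    (hr : β ⊆ range f) : ∃ E, IsArc E ∧ f '' E = β := by
  obtain ⟨γ, a, b, h0, h1, h2, rfl⟩ := h
  have e : EqOn (f ∘ Function.invFun f ∘ γ) γ (Icc a b) := fun s hs =>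
    Function.invFun_eq (hr ⟨s, hs, rfl⟩)
  refine ⟨_, ⟨Function.invFun f ∘ γ, a, b, h0, hf.continuousOn_iff.2 (h1.congr e),
    InjOn.of_comp (g := f) (h2.congr e.symm), rfl⟩, ?_⟩
  rw [← image_comp]
  exact e.image_eq

theorem ring_len {α : Set ℍ} (h : IsPreconnected α) {r : ℝ} (h1 : (α ∩ closedBall I r).Nonempty)
    (h2 : ¬ α ⊆ closedBall I (r + 1)) :
    1 ≤ μH[1] (α ∩ (closedBall I (r + 1) \ closedBall I r)) := by
  obtain ⟨p, hp, hp'⟩ := h1
  obtain ⟨q, hq, hq'⟩ := not_subset.1 h2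
  have h3 := (LipschitzWith.dist_left I).hausdorffMeasure_image_le zero_le_one
    (α ∩ (closedBall I (r + 1) \ closedBall I r))
  simp only [ENNReal.coe_one, ENNReal.one_rpow, one_mul, hausdorffMeasure_real] at h3
  refine le_trans ?_ ((measure_mono (show Ioc r (r + 1) ⊆ _ from fun x hx => ?_)).trans h3)
  · simp
  · obtain ⟨z, hz, rfl⟩ := h.intermediate_value hp hq (f := fun z => dist z I) (by fun_prop)
      (show x ∈ _ from ⟨(mem_closedBall.1 hp').trans hx.1.le,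
        hx.2.trans (not_le.1 (mt mem_closedBall.2 hq')).le⟩)
    exact ⟨z, ⟨hz, hx.2, not_le.2 hx.1⟩, rfl⟩

theorem modulus_mono {𝓐 𝓑 : Set (Set ℍ)} (h : 𝓐 ⊆ 𝓑) : modulus 𝓐 ≤ modulus 𝓑 :=
  le_iInf₂ fun ρ hρ => iInf₂_le ρ ⟨hρ.1, fun α hα => hρ.2 α (h hα)⟩

theorem IsQC.symm {K : ℝ} {φ : ℍ ≃ₜ ℍ} (h : IsQC K φ) : IsQC K φ.symm := fun 𝓐 h𝓐 => by
  have := h ((fun α => φ.symm '' α) '' 𝓐) (by
    rintro _ ⟨α, hα, rfl⟩; exact (h𝓐 α hα).image _)
  simp only [image_image, Homeomorph.apply_symm_apply, image_id'] at this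
  exact this.symm

theorem IsQC.mono {K K' : ℝ} {φ : ℍ ≃ₜ ℍ} (h : IsQC K φ) (hK : K ≤ K') : IsQC K' φ :=
  fun 𝓐 h𝓐 => (h 𝓐 h𝓐).imp
    (fun h => h.trans (mul_le_mul_left (ENNReal.ofReal_le_ofReal hK) _))
    fun h => h.trans (mul_le_mul_left (ENNReal.ofReal_le_ofReal hK) _)

/-- arcs joining `C` to the complement of `Q` -/
def Fam (C Q : Set ℍ) : Set (Set ℍ) := {α | IsArc α ∧ (α ∩ C).Nonempty ∧ ¬ α ⊆ Q}

/-- capacity relative to the ideal boundary -/
noncomputable def cap (C : Set ℍ) : ℝ≥0∞ := ⨅ (Q : Set ℍ) (_ : IsCompact Q), modulus (Fam C Q)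

theorem cap_le {C Q : Set ℍ} (hQ : IsCompact Q) {ρ : ℍ → ℝ≥0∞} (h : Admissible (Fam C Q) ρ) :
    cap C ≤ ∫⁻ z, ρ z ^ 2 := (iInf₂_le Q hQ).trans (iInf₂_le ρ h)

theorem of_cap_lt {C : Set ℍ} {M : ℝ≥0∞} (h : cap C < M) :
    ∃ Q, IsCompact Q ∧ ∃ ρ, Admissible (Fam C Q) ρ ∧ ∫⁻ z, ρ z ^ 2 < M := by
  simpa only [cap, modulus, iInf_lt_iff, exists_prop] using h

theorem cap_mono {C C' : Set ℍ} (h : C ⊆ C') : cap C ≤ cap C' :=
  iInf₂_mono fun _ _ => modulus_mono fun _ hα =>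
    ⟨hα.1, hα.2.1.mono (inter_subset_inter_right _ h), hα.2.2⟩

theorem cap_qc {K : ℝ} (hK : 0 < K) {φ : ℍ ≃ₜ ℍ} (h : IsQC K φ) (C : Set ℍ) :
    cap (φ '' C) ≤ ENNReal.ofReal K * cap C := by
  have h0 := (ENNReal.ofReal_pos.2 hK).ne'
  rw [cap, cap, ENNReal.mul_iInf_of_ne h0 ENNReal.ofReal_ne_top]
  refine le_iInf fun Q => ?_
  rw [ENNReal.mul_iInf_of_ne h0 ENNReal.ofReal_ne_top]
  refine le_iInf fun hQ => (iInf₂_le (φ '' Q) (hQ.image φ.continuous)).trans
    ((modulus_mono ?_).trans (h (Fam C Q) fun _ hα => hα.1).1)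
  rintro α ⟨h1, ⟨_, h2, z, hz, rfl⟩, h3⟩
  refine ⟨φ.symm '' α, ⟨h1.image _, ⟨z, ⟨_, h2, φ.symm_apply_apply z⟩, hz⟩, fun h4 => h3 ?_⟩,
    by simp [image_image]⟩
  intro w hw
  exact ⟨_, h4 ⟨w, hw, rfl⟩, φ.apply_symm_apply w⟩

theorem PF.adm {f : ℍ → ℍ} (hf : PF f) {C : Set ℍ} (hC : IsCompact C) {M : ℝ≥0∞}
    (h : cap C < M) : ∃ Q, IsCompact Q ∧ Q ⊆ range f ∧ ∃ ρ : ℍ → ℝ≥0∞, Measurable ρ ∧
      ∫⁻ z, ρ z ^ 2 < M ∧ ∀ α ∈ Fam (f '' C) Q, μH[1] α < ⊤ →
        1 ≤ ∫⁻ z in α ∩ range f, ρ z ∂μH[1] := by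
  obtain ⟨Q, hQ, ρ, hρ, hM⟩ := of_cap_lt h
  obtain ⟨ρ', h1, h2, h3⟩ := hf.push ρ hρ.1
  obtain ⟨Q', hQ', hi⟩ := exists_compact_superset (hQ.union hC)
  have hc := hQ'.image hf.emb.continuous
  refine ⟨f '' Q', hc, image_subset_range _ _, ρ', h1, h2.trans_lt hM, ?_⟩
  rintro α ⟨a1, ⟨_, a2, z, hz, rfl⟩, a3⟩ hfin
  have hs : f '' interior Q' ⊆ f '' Q' := image_mono interior_subset
  obtain ⟨β, b1, b2, b3, b4, b5⟩ := a1.sub (hf.emb.isOpenMap _ isOpen_interior) a2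
    ⟨z, hi (Or.inr hz), rfl⟩ fun h => a3 (h.trans hs)
  have hr : β ⊆ range f :=
    b4.trans ((closure_minimal hs hc.isClosed).trans (image_subset_range _ _))
  obtain ⟨E, e1, rfl⟩ := b1.pull hf.emb.isEmbedding hr
  refine (hρ.2 E ⟨e1, ⟨z, (hf.emb.injective.mem_set_image).1 b3, hz⟩, fun h => b5
    (image_mono (h.trans (subset_union_left.trans hi)))⟩
    (hf.fin E e1.isCompact ((measure_mono b2).trans_lt hfin))).trans ((h3 E e1.isCompact).trans ?_)
  exact lintegral_mono_set (subset_inter b2 hr)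

theorem PF.cap_le {f : ℍ → ℍ} (hf : PF f) {C : Set ℍ} (hC : IsCompact C) :
    cap (f '' C) ≤ cap C := by
  refine le_of_forall_gt_imp_ge_of_dense fun M hM => ?_
  obtain ⟨Q, hQ, -, ρ, h1, h2, h3⟩ := hf.adm hC hM
  exact (MP_7dc785_an.cap_le hQ ⟨h1, fun α hα h =>
    (h3 α hα h).trans (lintegral_mono_set inter_subset_left)⟩).trans h2.le

theorem PF.serial {f : ℍ → ℍ} (hf : PF f) {r : ℝ} (hr : range f ⊆ closedBall I r) {C : Set ℍ}
    (hC : IsCompact C) {M : ℝ≥0∞} (h : cap C < M) {a b : ℝ≥0∞} (hab : 1 ≤ a + b) :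
    cap (f '' C) ≤ a ^ 2 * M + b ^ 2 * volume (closedBall I (r + 1)) := by
  obtain ⟨Q, hQ, hQr, ρ, h1, h2, h3⟩ := hf.adm hC h
  have hB : MeasurableSet (closedBall I r) := measurableSet_closedBall
  have hR : MeasurableSet (closedBall I (r + 1) \ closedBall I r) :=
    measurableSet_closedBall.diff hB
  have m1 : Measurable ((closedBall I r).indicator fun z => a * ρ z) :=
    (h1.const_mul a).indicator hB
  have m2 : Measurable ((closedBall I (r + 1) \ closedBall I r).indicator fun _ => b) :=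
    measurable_const.indicator hR
  have hsub : closedBall I r ⊆ closedBall I (r + 1) := closedBall_subset_closedBall (by linarith)
  refine (MP_7dc785_an.cap_le (isCompact_closedBall I (r + 1))
    (ρ := fun z => (closedBall I r).indicator (fun z => a * ρ z) z +
      (closedBall I (r + 1) \ closedBall I r).indicator (fun _ => b) z)
    ⟨m1.add m2, fun α hα hfin => ?_⟩).trans ?_
  · have k1 := h3 α ⟨hα.1, hα.2.1, fun h => hα.2.2 (h.trans (hQr.trans (hr.trans hsub)))⟩ hfin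
    have k2 := ring_len hα.1.isPreconnected
      (hα.2.1.mono (inter_subset_inter_right _ ((image_subset_range _ _).trans hr))) hα.2.2
    rw [lintegral_add_left m1, lintegral_indicator hB, lintegral_indicator hR,
      Measure.restrict_restrict hB, Measure.restrict_restrict hR, lintegral_const_mul _ h1,
      setLIntegral_const, inter_comm _ α, inter_comm _ α]
    refine hab.trans (add_le_add (le_mul_of_one_le_right' (k1.trans (lintegral_mono_set
      (inter_subset_inter_right _ hr)))) (le_mul_of_one_le_right' k2))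
  · calc _ ≤ ∫⁻ z, a ^ 2 * ρ z ^ 2 + (closedBall I (r + 1)).indicator (fun _ => b ^ 2) z := by
          refine lintegral_mono fun z => ?_
          by_cases c1 : z ∈ closedBall I r
          · rw [indicator_of_mem c1, indicator_of_notMem (fun h => h.2 c1), add_zero, mul_pow]
            exact le_self_add
          · rw [indicator_of_notMem c1, zero_add]
            by_cases c2 : z ∈ closedBall I (r + 1)
            · rw [indicator_of_mem (mem_sdiff_of_mem c2 c1), indicator_of_mem c2]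
              exact le_add_self
            · rw [indicator_of_notMem (fun h => c2 h.1)]
              simp
      _ ≤ _ := by
          rw [lintegral_add_left ((h1.pow_const 2).const_mul _), lintegral_const_mul _
            (h1.pow_const 2), lintegral_indicator measurableSet_closedBall, setLIntegral_const]
          gcongr

theorem cap_le_vol {C : Set ℍ} {r : ℝ} (h : C ⊆ closedBall I r) :
    cap C ≤ volume (closedBall I (r + 1)) := by
  have hR : MeasurableSet (closedBall I (r + 1) \ closedBall I r) :=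
    measurableSet_closedBall.diff measurableSet_closedBall
  refine (cap_le (isCompact_closedBall I (r + 1))
    (ρ := (closedBall I (r + 1) \ closedBall I r).indicator 1)
    ⟨measurable_const.indicator hR, fun α hα _ => ?_⟩).trans ?_
  · rw [lintegral_indicator_one hR, Measure.restrict_apply hR, inter_comm]
    exact ring_len hα.1.isPreconnected (hα.2.1.mono (inter_subset_inter_right _ h)) hα.2.2
  · refine le_trans (le_of_eq ?_) (measure_mono (sdiff_subset (t := closedBall I r)))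
    rw [← lintegral_indicator_one hR]
    refine lintegral_congr fun z => ?_
    by_cases c : z ∈ closedBall I (r + 1) \ closedBall I r
    · simp [indicator_of_mem c]
    · simp [indicator_of_notMem c]

/-- continua of diameter at least `d` -/
def Good (d : ℝ) (C : Set ℍ) : Prop :=
  IsCompact C ∧ IsPathConnected C ∧ ∃ z ∈ C, ∃ w ∈ C, d ≤ dist z w

/-- the least capacity of such a continuum -/
noncomputable def mc (d : ℝ) : ℝ≥0∞ := ⨅ (C : Set ℍ) (_ : Good d C), cap C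

theorem mc_mono {d d' : ℝ} (h : d ≤ d') : mc d ≤ mc d' :=
  le_iInf₂ fun C ⟨h1, h2, z, hz, w, hw, h3⟩ => iInf₂_le C ⟨h1, h2, z, hz, w, hw, h.trans h3⟩

theorem continuous_ax : Continuous ax := (isometry_vertical_line 0).continuous

theorem mc_le_vol {d : ℝ} (hd : 0 ≤ d) : mc d ≤ volume (closedBall I (d + 1)) := by
  refine (iInf₂_le (ax '' Icc 0 d) ⟨isCompact_Icc.image continuous_ax,
    ((convex_Icc 0 d).isPathConnected ⟨0, left_mem_Icc.2 hd⟩).image continuous_ax,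
    _, ⟨d, right_mem_Icc.2 hd, rfl⟩, _, ⟨0, left_mem_Icc.2 hd, rfl⟩, ?_⟩).trans (cap_le_vol ?_)
  · rintro _ ⟨s, hs, rfl⟩
    rw [mem_closedBall, ← ax_zero, dist_ax, sub_zero, abs_of_nonneg hs.1]
    exact hs.2
  · rw [dist_ax, sub_zero, abs_of_nonneg hd]

theorem Good.move {d : ℝ} {C : Set ℍ} (h : Good d C) {z w : ℍ} (hd : dist z w ≤ d) :
    ∃ C', IsCompact C' ∧ IsPathConnected C' ∧ z ∈ C' ∧ w ∈ C' ∧ cap C' ≤ cap C := by
  obtain ⟨h1, h2, p, hp, q, hq, h3⟩ := h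
  obtain ⟨u, hu, he⟩ := h2.isConnected.isPreconnected.intermediate_value hp hq
    (f := fun u => dist p u) (by fun_prop)
    (show dist z w ∈ _ from ⟨by simp, hd.trans h3⟩)
  obtain ⟨g, g1, g2⟩ := two_point he
  exact ⟨(g • ·) '' C, h1.image (continuous_const_smul g), h2.image (continuous_const_smul g),
    ⟨p, hp, g1⟩, ⟨u, hu, g2⟩, (pf_smul g).cap_le h1⟩

theorem mc_qc {K : ℝ} (hK : 0 < K) {φ : ℍ ≃ₜ ℍ} (h : IsQC K φ) {z w : ℍ} {d : ℝ}
    (hd : dist z w ≤ d) : mc (dist (φ z) (φ w)) ≤ ENNReal.ofReal K * mc d := by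
  have h0 := (ENNReal.ofReal_pos.2 hK).ne'
  rw [mc, mc, ENNReal.mul_iInf_of_ne h0 ENNReal.ofReal_ne_top]
  refine le_iInf fun C => ?_
  rw [ENNReal.mul_iInf_of_ne h0 ENNReal.ofReal_ne_top]
  refine le_iInf fun hC => ?_
  obtain ⟨C', h1, h2, h3, h4, h5⟩ := hC.move hd
  exact (iInf₂_le (φ '' C') ⟨h1.image φ.continuous, h2.image φ.continuous, _, ⟨z, h3, rfl⟩, _,
    ⟨w, h4, rfl⟩, le_rfl⟩).trans ((cap_qc hK h C').trans (mul_le_mul_right h5 _))

theorem mc_con {t D s μ : ℝ} (ht : 0 < t) (h1 : t ≤ 1) (hD : 0 ≤ D) (hs : 0 ≤ s) (hs1 : s ≤ 1)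
    (hμ : ENNReal.ofReal μ ≤ mc D) (hsμ : 864 * s ≤ μ * t) :
    mc (D - 2 * t * Real.exp D) ≤ ENNReal.ofReal (1 - s / 2) * mc D := by
  have hk : ENNReal.ofReal (1 - s / 2) ≠ 0 := (ENNReal.ofReal_pos.2 (by linarith)).ne'
  refine ENNReal.le_mul_of_forall_lt (Or.inl hk) (Or.inl ENNReal.ofReal_ne_top)
    fun k hk' M hM => le_trans ?_ (mul_le_mul_left hk'.le M)
  rcases eq_or_ne M ⊤ with rfl | hM'
  · rw [ENNReal.mul_top hk]; exact le_top
  lift M to ℝ≥0 using hM'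
  have hμM : μ ≤ M := by
    have := hμ.trans hM.le
    rwa [ENNReal.ofReal_le_coe] at this
  obtain ⟨C, hC, hlt⟩ : ∃ C, Good D C ∧ cap C < M := by
    simpa only [mc, iInf_lt_iff, exists_prop] using hM
  obtain ⟨C', c1, c2, c3, c4, c5⟩ := hC.move (z := ax D) (w := ax 0)
    (by rw [dist_ax, sub_zero, abs_of_nonneg hD])
  have hf := pf_con ht
  refine (iInf₂_le (con t '' C') ⟨c1.image hf.emb.continuous, c2.image hf.emb.continuous, _,
    ⟨_, c3, rfl⟩, _, ⟨_, c4, rfl⟩, con_dist ht h1 hD⟩).trans ?_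
  refine (hf.serial (range_subset_iff.2 (con_mem ht h1)) c1 (c5.trans_lt hlt)
    (a := ENNReal.ofReal (1 - s)) (b := ENNReal.ofReal s) ?_).trans ?_
  · rw [← ENNReal.ofReal_add (by linarith) hs]; simp
  refine (add_le_add_right (mul_le_mul_right (vol_closedBall_le _) _) _).trans ?_
  rw [← ENNReal.ofReal_coe_nnreal, ← ENNReal.ofReal_pow (by linarith), ← ENNReal.ofReal_pow hs,
    ← ENNReal.ofReal_mul (by positivity), ← ENNReal.ofReal_mul (by positivity),
    ← ENNReal.ofReal_mul (by linarith), ← ENNReal.ofReal_add (by positivity) (by positivity),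
    Real.exp_add, Real.exp_log (by positivity)]
  refine ENNReal.ofReal_le_ofReal ?_
  have e1 : s * (48 * (3 / t * Real.exp 1)) ≤ M / 2 := by
    have : Real.exp 1 ≤ 3 := by linarith [Real.exp_one_lt_d9]
    calc _ ≤ s * (48 * (3 / t * 3)) := by gcongr
      _ = 864 * s / t / 2 := by ring
      _ ≤ _ := by
        gcongr
        rw [div_le_iff₀ ht]
        exact hsμ.trans (mul_le_mul_of_nonneg_right hμM ht.le)
  have e2 := mul_le_mul_of_nonneg_left e1 hs
  have e3 := mul_nonneg (mul_nonneg hs (sub_nonneg.2 hs1)) M.coe_nonneg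
  nlinarith

theorem measurable_vert (x : ℝ) : Measurable fun y : ℝ => oc ⟨x, y⟩ := by
  have : (fun y : ℝ => oc ⟨x, y⟩) = fun y : ℝ => oc (x + y * Complex.I) :=
    funext fun y => by rw [Complex.mk_eq_add_mul_I]
  rw [this]
  exact measurable_oc.comp (by fun_prop)

theorem vert {x y₀ y₁ : ℝ} (h0 : 0 < y₀) (h1 : y₀ < y₁) :
    IsArc ((fun y : ℝ => oc ⟨x, y⟩) '' Icc y₀ y₁) ∧
      μH[1] ((fun y : ℝ => oc ⟨x, y⟩) '' Icc y₀ y₁) < ⊤ ∧ ∀ ρ : ℍ → ℝ≥0∞, Measurable ρ →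
      ∫⁻ z in (fun y : ℝ => oc ⟨x, y⟩) '' Icc y₀ y₁, ρ z ∂μH[1] ≤
        ∫⁻ y in Icc y₀ y₁, ENNReal.ofReal (1 / y) * ρ (oc ⟨x, y⟩) := by
  have e : ∀ y ∈ Icc y₀ y₁, (oc ⟨x, y⟩ : ℂ) = ⟨x, y⟩ := fun y hy => coe_oc (h0.trans_le hy.1)
  have hm := measurable_vert x
  have hG : ∀ a ∈ Icc y₀ y₁, ∀ b ∈ Icc y₀ y₁, dist (oc ⟨x, a⟩) (oc ⟨x, b⟩) ≤
      (fun p : ℝ × ℝ => 1 / √(p.1 * p.2)) (a, b) * dist a b := fun a ha b hb => by
    refine (dist_le_dist_coe_div_sqrt _ _).trans_eq ?_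
    rw [e a ha, e b hb, im_oc (h0.trans_le ha.1), im_oc (h0.trans_le hb.1),
      Complex.dist_of_re_eq (z := ⟨x, a⟩) (w := ⟨x, b⟩) rfl]
    ring
  have hp : ∀ a ∈ Icc y₀ y₁, 0 < √(a * a) := fun a ha =>
    Real.sqrt_pos.2 (mul_pos (h0.trans_le ha.1) (h0.trans_le ha.1))
  have hc : ∀ a ∈ Icc y₀ y₁, ContinuousAt (fun p : ℝ × ℝ => 1 / √(p.1 * p.2)) (a, a) :=
    fun a ha => ContinuousAt.div (by fun_prop) (by fun_prop) (hp a ha).ne'
  have hm' : Measurable fun a : ℝ => (fun p : ℝ × ℝ => 1 / √(p.1 * p.2)) (a, a) := by fun_prop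
  refine ⟨⟨_, _, _, h1, isEmbedding_coe.continuousOn_iff.2 (ContinuousOn.congr
    (f := fun y : ℝ => (x + y * Complex.I : ℂ)) (by fun_prop) fun y hy =>
      (e y hy).trans (Complex.mk_eq_add_mul_I _ _)), fun a ha b hb h => ?_, rfl⟩,
    fin_image isCompact_Icc hG hc (fun a ha => one_div_pos.2 (hp a ha)) hm' (by simp),
    fun ρ hρ => (lint_image hm measurableSet_Icc hG hc (fun a ha => one_div_pos.2 (hp a ha)) hm'
      hρ).trans_eq ?_⟩
  · have := congrArg (fun z : ℍ => (z : ℂ).im) h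
    simpa only [e a ha, e b hb] using this
  · rw [hausdorffMeasure_real]
    refine setLIntegral_congr_fun measurableSet_Icc fun a ha => ?_
    simp only [Real.sqrt_mul_self (h0.trans_le ha.1).le]

theorem amgm (c : ℝ≥0) (u : ℝ≥0∞) : 2 * c * u ≤ c ^ 2 + u ^ 2 := by
  rcases eq_or_ne u ⊤ with rfl | h
  · simp
  lift u to ℝ≥0 using h
  exact_mod_cast two_mul_le_add_sq (c : ℝ) u

theorem le_cap {C : Set ℍ} (hC : IsPreconnected C) {p q : ℍ} (hp : p ∈ C) (hq : q ∈ C) {L : ℝ}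
    (hL : ∀ z ∈ C, z.im ≤ L) : ENNReal.ofReal (q.re - p.re) * ENNReal.ofReal (1 / L) ≤ cap C := by
  have hL0 : 0 < L := p.im_pos.trans_le (hL p hp)
  refine le_iInf₂ fun Q hQ => le_iInf₂ fun ρ hρ => ?_
  obtain ⟨A, B, hB, hQ'⟩ := subset_verticalStrip_of_isCompact hQ
  obtain ⟨Φ, hΦ⟩ : ∃ Φ : ℂ → ℝ≥0∞, Φ = {w : ℂ | 0 < w.im}.indicator
    fun w => ENNReal.ofReal (1 / w.im ^ 2) * ρ (oc w) ^ 2 := ⟨_, rfl⟩
  have hm : Measurable Φ := by
    rw [hΦ]
    exact Measurable.indicator (Measurable.mul (by fun_prop)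
      ((hρ.1.comp measurable_oc).pow_const 2)) measurableSet_pos
  rw [lint_vol (hρ.1.pow_const 2), ← hΦ,
    ← Complex.volume_preserving_equiv_real_prod.symm.lintegral_comp hm, Measure.volume_eq_prod,
    lintegral_prod (fun a => Φ (Complex.measurableEquivRealProd.symm a))
      (hm.comp (MeasurableEquiv.measurable _)).aemeasurable, ← Real.volume_Icc,
    mul_comm, ← setLIntegral_const]
  refine le_trans (setLIntegral_mono' measurableSet_Icc fun x hx => ?_)
    (setLIntegral_le_lintegral _ _)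
  obtain ⟨z, hz, rfl⟩ := hC.intermediate_value hp hq continuous_re.continuousOn hx
  have hy := z.im_pos
  have h0 : 0 < min B z.im / 2 := by positivity
  have h1 : min B z.im / 2 < z.im := by linarith [min_le_right B z.im]
  obtain ⟨v1, v2, v3⟩ := vert (x := z.re) h0 h1
  have h2 := (hρ.2 _ ⟨v1, ⟨z, ⟨z.im, right_mem_Icc.2 h1.le, oc_coe z⟩, hz⟩, fun h => ?_⟩ v2).trans
    (v3 ρ hρ.1)
  swap
  · have := (hQ' (h ⟨_, left_mem_Icc.2 h1.le, rfl⟩)).2
    rw [im_oc h0] at this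
    linarith [min_le_left B z.im]
  lift L to ℝ≥0 using hL0.le
  have hL1 : (L : ℝ≥0∞) ≠ 0 := by exact_mod_cast hL0.ne'
  have h3 : 2 * ((L⁻¹ : ℝ≥0) : ℝ≥0∞) ≤ ((L⁻¹ : ℝ≥0) : ℝ≥0∞) +
      ∫⁻ y, Φ (Complex.measurableEquivRealProd.symm (z.re, y)) := by
    have hu : Measurable fun y : ℝ => ENNReal.ofReal (1 / y) * ρ (oc ⟨z.re, y⟩) :=
      Measurable.mul (by fun_prop) (hρ.1.comp (measurable_vert _))
    refine (le_mul_of_one_le_right' h2).trans ?_
    rw [← lintegral_const_mul _ hu]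
    refine (lintegral_mono fun y => amgm _ _).trans ?_
    rw [lintegral_add_left measurable_const, setLIntegral_const, Real.volume_Icc]
    refine add_le_add ?_ (le_trans (setLIntegral_mono' measurableSet_Icc fun y hy => ?_)
      (setLIntegral_le_lintegral _ _))
    · refine (mul_le_mul_right (ENNReal.ofReal_le_of_le_toReal (b := L)
        (by simpa using (sub_le_self _ h0.le).trans (hL z hz))) _).trans_eq ?_
      rw [sq, mul_assoc, ← ENNReal.coe_mul, inv_mul_cancel₀ (by exact_mod_cast hL0.ne'),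
        ENNReal.coe_one, mul_one]
    · have h4 : 0 < y := h0.trans_le hy.1
      rw [hΦ, indicator_of_mem (by exact h4), mul_pow, ← ENNReal.ofReal_pow (by positivity),
        one_div_pow]
      rfl
  rw [two_mul, ENNReal.add_le_add_iff_left ENNReal.coe_ne_top] at h3
  rwa [one_div, ← NNReal.coe_inv, ENNReal.ofReal_coe_nnreal]

theorem mc_pos {d : ℝ} (hd : 0 < d) : ∃ μ > 0, ENNReal.ofReal μ ≤ mc d := by
  obtain ⟨q, hq, q1⟩ : ∃ q : ℍ, dist I q < d ∧ 0 < q.re := by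
    have h1 : Continuous fun x : ℝ => dist I (pt x 1 one_pos) := by
      refine continuous_const.dist (isEmbedding_coe.continuous_iff.2 ?_)
      change Continuous fun x : ℝ => (⟨x, 1⟩ : ℂ)
      simp only [Complex.mk_eq_add_mul_I]; fun_prop
    have h2 : ∀ᶠ x in 𝓝[>] (0 : ℝ), dist I (pt x 1 one_pos) < d :=
      mem_nhdsWithin_of_mem_nhds (h1.continuousAt.eventually_lt continuousAt_const
        (by rwa [show pt 0 1 one_pos = I from rfl, dist_self]))
    obtain ⟨x, hx⟩ := (h2.and self_mem_nhdsWithin).exists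
    exact ⟨_, hx⟩
  refine ⟨q.re * (1 / Real.exp (dist I q)), by positivity, le_iInf₂ fun C hC => ?_⟩
  obtain ⟨h1, h2, z, hz, w, hw, h3⟩ := hC
  have hj := h2.joinedIn z hz w hw
  have hq0 : 0 < dist I q := dist_pos.2 fun h => by simp [← h] at q1
  obtain ⟨c, c1, -, c3, c4⟩ := first_exit zero_le_one hj.somePath.continuous_extend.continuousOn
    (U := ball z (dist I q)) isOpen_ball (by simpa using hq0)
    (by rw [Path.extend_one, mem_ball, dist_comm]; linarith)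
  replace c4 := c4.trans closure_ball_subset_closedBall
  have he : dist z (hj.somePath.extend c) = dist I q := by
    rw [dist_comm]
    exact le_antisymm (c4 ⟨c, right_mem_Icc.2 c1.le, rfl⟩) (not_lt.1 c3)
  obtain ⟨g, g1, g2⟩ := two_point he
  have hs : hj.somePath.extend '' Icc 0 c ⊆ C := by
    refine (image_subset_range _ _).trans ?_
    rw [Path.extend_range]
    exact range_subset_iff.2 hj.somePath_mem
  refine le_trans ?_ (((pf_smul g).cap_le
    (isCompact_Icc.image hj.somePath.continuous_extend)).trans (cap_mono hs))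
  refine le_trans ?_ (le_cap (p := I) (q := q) (L := Real.exp (dist I q))
    ((isPreconnected_Icc.image _ hj.somePath.continuous_extend.continuousOn).image _
      (continuous_const_smul g).continuousOn)
    ⟨z, ⟨0, left_mem_Icc.2 c1.le, Path.extend_zero _⟩, g1⟩
    ⟨_, ⟨c, right_mem_Icc.2 c1.le, rfl⟩, g2⟩ ?_)
  · rw [ENNReal.ofReal_mul q1.le, I_re, sub_zero]
  · rintro _ ⟨u, hu, rfl⟩
    refine (im_le_im_mul_exp_dist _ I).trans ?_
    rw [I_im, one_mul, ← g1, dist_smul, g1]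
    exact Real.exp_le_exp.2 (c4 hu)

theorem qc_local {d₀ : ℝ} (h₀ : 0 < d₀) : ∃ C > 0, ∀ ε > 0, C * ε ≤ 1 → ∀ φ : ℍ ≃ₜ ℍ,
    IsQC (1 + ε) φ → ∀ z w : ℍ, ∀ l, d₀ ≤ l → l ≤ 2 * d₀ → dist z w ≤ l →
      dist (φ z) (φ w) ≤ l + C * ε := by
  obtain ⟨μ, hμ, hμ'⟩ := mc_pos h₀
  obtain ⟨T, hT⟩ : ∃ T, T = 3456 / μ := ⟨_, rfl⟩
  have hT0 : 0 < T := by rw [hT]; positivity
  have hE := Real.one_le_exp (show 0 ≤ 2 * d₀ + 1 by linarith)
  refine ⟨2 * T * Real.exp (2 * d₀ + 1) + 4, by positivity, fun ε hε h1 φ hφ z w l l1 l2 hd => ?_⟩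
  by_contra hlt
  have h2 := mul_le_mul_of_nonneg_left hE (mul_pos hT0 hε).le
  have h3 := mul_pos hT0 hε
  obtain ⟨D, hD⟩ : ∃ D, D = l + (2 * T * Real.exp (2 * d₀ + 1) + 4) * ε := ⟨_, rfl⟩
  have h4 : 0 ≤ (2 * T * Real.exp (2 * d₀ + 1) + 4) * ε := by positivity
  have h5 := mc_con (t := T * ε) (D := D) (s := 4 * ε) h3 (by nlinarith) (by linarith)
    (by linarith) (by nlinarith) (hμ'.trans (mc_mono (by linarith)))
    (by rw [hT]; field_simp; norm_num)
  have h6 : l ≤ D - 2 * (T * ε) * Real.exp D := by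
    have := mul_le_mul_of_nonneg_left (Real.exp_le_exp.2 (show D ≤ 2 * d₀ + 1 by linarith)) h3.le
    nlinarith
  have h7 := (mc_mono h6).trans (h5.trans (mul_le_mul_right
    ((mc_mono (hD.le.trans (not_le.1 hlt).le)).trans (mc_qc (by linarith) hφ hd)) _))
  have h8 : mc l ≠ 0 := ((ENNReal.ofReal_pos.2 hμ).trans_le (hμ'.trans (mc_mono l1))).ne'
  have h9 : mc l ≠ ⊤ := ((mc_le_vol (by linarith)).trans_lt measure_closedBall_lt_top).ne
  rw [← mul_assoc, ← ENNReal.ofReal_mul (by nlinarith)] at h7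
  nth_rw 1 [← one_mul (mc l)] at h7
  rw [ENNReal.mul_le_mul_iff_left h8 h9, ENNReal.one_le_ofReal] at h7
  nlinarith

theorem qc_dist {d₀ : ℝ} (h₀ : 0 < d₀) : ∃ C > 0, ∀ ε > 0, C * ε ≤ 1 → ∀ φ : ℍ ≃ₜ ℍ,
    IsQC (1 + ε) φ → ∀ z w : ℍ, ∀ l, d₀ ≤ l → dist z w ≤ l →
      dist (φ z) (φ w) ≤ l * (1 + C * ε) := by
  obtain ⟨C, hC, H⟩ := qc_local h₀
  refine ⟨C + C / d₀, by positivity, fun ε hε h1 φ hφ z w l hl hd => ?_⟩
  have h2 : 0 < C / d₀ * ε := by positivity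
  have h3 : 0 < C * ε := by positivity
  obtain ⟨g, g1, g2⟩ := exists_norm z w
  obtain ⟨n, hn⟩ : ∃ n, n = ⌊l / d₀⌋₊ := ⟨_, rfl⟩
  have n1 : (n : ℝ) ≤ l / d₀ := hn ▸ Nat.floor_le (by have := h₀.trans_le hl; positivity)
  have n2 : l / d₀ < n + 1 := hn ▸ Nat.lt_floor_add_one _
  have n3 : 1 ≤ n := hn ▸ Nat.le_floor (by rwa [Nat.cast_one, one_le_div h₀])
  have n4 : (1 : ℝ) ≤ n := by exact_mod_cast n3
  have n5 : (0 : ℝ) < n := by linarith
  have h4 := dist_le_range_sum_of_dist_le (f := fun k : ℕ => φ (g • ax (k * (dist z w / n)))) n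
    (d := fun _ => l / n + C * ε) fun {k} _ => H ε hε (by linarith) φ hφ _ _ _
      (by rw [le_div_iff₀ n5]; rw [le_div_iff₀ h₀] at n1; linarith)
      (by rw [div_le_iff₀ n5]; rw [div_lt_iff₀ h₀] at n2; nlinarith) (by
        rw [dist_smul, dist_ax, abs_sub_comm]
        push_cast
        rw [add_one_mul, add_sub_cancel_left, abs_of_nonneg (by positivity)]
        gcongr)
  simp only [Nat.cast_zero, zero_mul, ax_zero, g1, mul_div_cancel₀ _ n5.ne', g2, Finset.sum_const,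
    Finset.card_range, nsmul_eq_mul, mul_add] at h4
  have h5 := mul_le_mul_of_nonneg_right n1 h3.le
  have h6 := mul_nonneg (h₀.le.trans hl) h3.le
  have h7 : l / d₀ * (C * ε) = l * (C / d₀ * ε) := by ring
  nlinarith

end Pool.Agent.MP_7dc785_an

end

-- part MP_7dc785_an.Geo
section

/-!
Displacement functions of hyperbolic isometries, the thick part of a closed surface and thin strips.
-/

namespace Pool.Agent.MP_7dc785_an

open Set MeasureTheory Metric Filter Topology UpperHalfPlane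
open scoped MatrixGroups ENNReal NNReal

/-- the discriminant: the square of the trace minus four -/
def disc (g : SL(2, ℝ)) : ℝ := (g 0 0 - g 1 1) ^ 2 + 4 * g 0 1 * g 1 0

/-- a signed distance to the axis -/
noncomputable def tw (g : SL(2, ℝ)) (x y : ℝ) : ℝ :=
  (g 1 0 * (x ^ 2 + y ^ 2) + (g 1 1 - g 0 0) * x - g 0 1) / y

/-- the displacement -/
noncomputable def dp (g : SL(2, ℝ)) (z : ℍ) : ℝ := 2 * Real.cosh (dist z (g • z)) - 2

theorem det_eq (g : SL(2, ℝ)) : g 0 0 * g 1 1 - g 0 1 * g 1 0 = 1 := by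
  rw [← Matrix.det_fin_two, g.det_coe]

theorem neg_smul' (g : SL(2, ℝ)) (z : ℍ) : (-g) • z = g • z := by
  ext1
  rw [smul_coe, smul_coe, ← neg_div_neg_eq]
  simp [add_comm]

theorem dp_eq (g : SL(2, ℝ)) (z : ℍ) : dp g z = tw g z.re z.im ^ 2 + disc g := by
  have hd := det_eq g
  have hN := Complex.normSq_pos.2 (den_ne g z)
  have hy := z.im_pos
  have h1 : (g • z).im = z.im / Complex.normSq ((g 1 0 : ℂ) * z + g 1 1) := by
    rw [← coe_im, smul_coe, Complex.div_im, ← sub_div]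
    congr 1
    simp
    linear_combination z.im * hd
  rw [dp, cosh_dist, h1, dist_eq_norm, Complex.sq_norm, smul_coe, sub_div' (den_ne g z), map_div₀,
    tw, disc]
  generalize Complex.normSq ((g 1 0 : ℂ) * z + g 1 1) = N at hN
  field_simp
  simp [Complex.normSq_apply]
  ring

theorem disc_le (g : SL(2, ℝ)) (z : ℍ) : disc g ≤ dp g z := by
  rw [dp_eq]; nlinarith [sq_nonneg (tw g z.re z.im)]

theorem dp_I (g : SL(2, ℝ)) : dp g I = (g 0 0 - g 1 1) ^ 2 + (g 0 1 + g 1 0) ^ 2 := by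
  rw [dp_eq, tw, disc]
  simp
  ring

theorem disc_tr (g : SL(2, ℝ)) : disc g = (g : Matrix (Fin 2) (Fin 2) ℝ).trace ^ 2 - 4 := by
  rw [Matrix.trace_fin_two, disc]
  linear_combination (-4) * det_eq g

theorem disc_conj (g k : SL(2, ℝ)) : disc (k⁻¹ * g * k) = disc g := by
  rw [disc_tr, disc_tr, Matrix.SpecialLinearGroup.coe_mul, Matrix.trace_mul_comm,
    ← Matrix.SpecialLinearGroup.coe_mul, mul_inv_cancel_left]

theorem dp_conj (g k : SL(2, ℝ)) (z : ℍ) : dp (k⁻¹ * g * k) z = dp g (k • z) := by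
  rw [dp, dp, ← dist_smul k, mul_smul, mul_smul, smul_inv_smul]

theorem dp_axis {g : SL(2, ℝ)} (hc : g 1 0 ≠ 0) {t : ℝ} (ht : 0 < t) :
    ∃ z, dp g z = (t + disc g / 4) ^ 2 / t := by
  obtain ⟨y, hy, rfl⟩ : ∃ y, 0 < y ∧ t = g 1 0 ^ 2 * y ^ 2 :=
    ⟨√t / |g 1 0|, by positivity, by rw [div_pow, Real.sq_sqrt ht.le, sq_abs]; field_simp⟩
  refine ⟨pt ((g 0 0 - g 1 1) / (2 * g 1 0)) y hy, ?_⟩
  rw [dp_eq, pt_re, pt_im, tw, disc]
  field_simp
  ring

theorem exists_dp {g : SL(2, ℝ)} (h : 0 < disc g) {P : ℝ} (hP : disc g ≤ P) : ∃ z, dp g z = P := by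
  have h1 := Real.sq_sqrt (h.le.trans hP)
  have h2 := Real.sq_sqrt (sub_nonneg.2 hP)
  by_cases hc : g 1 0 = 0
  · have h3 : g 1 1 - g 0 0 ≠ 0 := fun h3 => by
      rw [disc, hc, ← neg_sub, h3] at h
      simp at h
    refine ⟨pt ((√(P - disc g) + g 0 1) / (g 1 1 - g 0 0)) 1 one_pos, ?_⟩
    rw [dp_eq, pt_re, pt_im, tw, hc, mul_div_cancel₀ _ h3]
    linear_combination h2
  · have h3 := Real.sqrt_pos.2 (h.trans_le hP)
    have h4 : 0 < ((√P + √(P - disc g)) / 2) ^ 2 := by positivity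
    obtain ⟨z, hz⟩ := dp_axis hc h4
    refine ⟨z, ?_⟩
    have h5 : ((√P + √(P - disc g)) / 2) ^ 2 + disc g / 4 = √P * ((√P + √(P - disc g)) / 2) := by
      linear_combination h2 / 4 - h1 / 4
    rw [hz, h5, mul_pow, mul_div_cancel_right₀ _ h4.ne', h1]

theorem le_disc {g : SL(2, ℝ)} {m : ℝ} (hm : 0 < m) (h : ∀ z, m ≤ dp g z) : m ≤ disc g := by
  rcases lt_or_ge 0 (disc g) with h0 | h0
  · obtain ⟨z, hz⟩ := exists_dp h0 le_rfl
    exact hz ▸ h z
  exfalso
  by_cases hc : g 1 0 = 0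
  · have h1 := h (pt 0 ((g 0 1 ^ 2 + m) / m) (by positivity))
    rw [dp_eq, pt_re, pt_im, tw, hc] at h1
    have h2 : m ≤ (g 0 1 * m) ^ 2 / (g 0 1 ^ 2 + m) ^ 2 := by
      refine (h1.trans (add_le_of_nonpos_right h0)).trans_eq ?_
      field_simp
      ring
    rw [le_div_iff₀ (by positivity)] at h2
    nlinarith [mul_pos hm (mul_pos hm hm), mul_nonneg hm.le (sq_nonneg (g 0 1 ^ 2)),
      mul_nonneg (mul_pos hm hm).le (sq_nonneg (g 0 1))]
  · obtain ⟨z, hz⟩ := dp_axis hc (t := m / 2 - disc g / 4) (by linarith)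
    have h1 := h z
    rw [hz, le_div_iff₀ (by linarith)] at h1
    nlinarith [mul_nonneg hm.le (neg_nonneg.2 h0)]

theorem cosh_mono {a b : ℝ} (ha : 0 ≤ a) (hab : a ≤ b) : Real.cosh a ≤ Real.cosh b :=
  Real.cosh_le_cosh.2 (by rwa [abs_of_nonneg ha, abs_of_nonneg (ha.trans hab)])

theorem exists_dist {g : SL(2, ℝ)} (h : 0 < disc g) {l : ℝ} (hl : 0 ≤ l)
    (hP : disc g ≤ 2 * Real.cosh l - 2) : ∃ z : ℍ, dist z (g • z) = l := by
  obtain ⟨z, hz⟩ := exists_dp h hP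
  refine ⟨z, Real.cosh_strictMonoOn.injOn dist_nonneg hl ?_⟩
  rw [dp] at hz
  linarith

theorem frob (a b c d e f g h : ℝ) : (a * e + b * g) ^ 2 + (a * f + b * h) ^ 2 +
    (c * e + d * g) ^ 2 + (c * f + d * h) ^ 2 ≤
    (a ^ 2 + b ^ 2 + c ^ 2 + d ^ 2) * (e ^ 2 + f ^ 2 + g ^ 2 + h ^ 2) := by
  nlinarith [sq_nonneg (a * g - b * e), sq_nonneg (a * h - b * f), sq_nonneg (c * g - d * e),
    sq_nonneg (c * h - d * f)]

theorem cross (p b c q f g : ℝ) (hA : 0 ≤ p ^ 2 + 4 * b * c) (hB : 0 ≤ q ^ 2 + 4 * f * g) :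
    (b * g - c * f) ^ 2 + (p * f - q * b) ^ 2 + (q * c - p * g) ^ 2 + (c * f - b * g) ^ 2 ≤
      2 * ((p ^ 2 + (b + c) ^ 2) * (q ^ 2 + (f + g) ^ 2)) := by
  have := mul_le_mul (a := p ^ 2 / 2 + b ^ 2 + c ^ 2) (b := p ^ 2 + (b + c) ^ 2)
    (c := q ^ 2 / 2 + f ^ 2 + g ^ 2) (d := q ^ 2 + (f + g) ^ 2)
    (by linarith) (by linarith) (by positivity) (by positivity)
  linarith [sq_nonneg (p * q / 2 + b * f + c * g)]

theorem adj_mul {a b c d e f g h N : ℝ} (h1 : a ^ 2 + b ^ 2 + c ^ 2 + d ^ 2 ≤ 9)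
    (h2 : e ^ 2 + f ^ 2 + g ^ 2 + h ^ 2 ≤ 2 * N) :
    (d * e - b * g - (a * h - c * f)) ^ 2 + (d * f - b * h + (a * g - c * e)) ^ 2 ≤ 36 * N := by
  have := mul_le_mul h1 h2 (by positivity) (by norm_num)
  linarith [frob d (-b) (-c) a e f g h, sq_nonneg (d * e - b * g + (a * h - c * f)),
    sq_nonneg (d * f - b * h - (a * g - c * e))]

theorem comm_I {A B : SL(2, ℝ)} (hA : 0 ≤ disc A) (hB : 0 ≤ disc B) (h1 : dp A I ≤ 1)
    (h2 : dp B I ≤ 1) : dp ((B * A)⁻¹ * (A * B)) I ≤ 36 * (dp A I * dp B I) := by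
  have dA := det_eq A
  have dB := det_eq B
  simp only [dp_I, disc, Matrix.SpecialLinearGroup.coe_mul, Matrix.SpecialLinearGroup.coe_inv,
    Matrix.adjugate_fin_two, Matrix.mul_apply, Fin.sum_univ_two, Matrix.of_apply,
    Matrix.cons_val', Matrix.cons_val_zero, Matrix.cons_val_one, Matrix.cons_val_fin_one] at *
  generalize A 0 0 = a, A 0 1 = b, A 1 0 = c, A 1 1 = d, B 0 0 = e, B 0 1 = f, B 1 0 = g,
    B 1 1 = h at *
  have a1 := (frob e f g h a b c d).trans (mul_le_mul (b := 3) (d := 3) (by linarith) (by linarith)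
    (by positivity) (by positivity))
  refine le_trans (le_of_eq ?_) (adj_mul (a1.trans_eq (by norm_num)) (cross _ b c _ f g hA hB))
  ring

theorem commute_I {A B : SL(2, ℝ)} (h : A * B = B * A) : dp A I * disc B = dp B I * disc A := by
  have h1 := congrArg (fun M : SL(2, ℝ) => M 0 0) h
  have h2 := congrArg (fun M : SL(2, ℝ) => M 0 1) h
  have h3 := congrArg (fun M : SL(2, ℝ) => M 1 0) h
  simp only [Matrix.SpecialLinearGroup.coe_mul, Matrix.mul_apply, Fin.sum_univ_two] at h1 h2 h3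
  rw [dp_I, dp_I, disc, disc]
  linear_combination (-((A 0 1 - A 1 0) * (B 0 0 - B 1 1) + (B 0 1 - B 1 0) * (A 0 0 - A 1 1))) *
    (h2 + h3) + 4 * (A 0 1 * B 0 1 - A 1 0 * B 1 0) * h1

variable {Γ : Subgroup SL(2, ℝ)}

theorem proj_eq {z w : ℍ} : proj Γ z = proj Γ w ↔ ∃ γ ∈ Γ, γ • w = z :=
  Quotient.eq.trans ⟨fun ⟨γ, h⟩ => ⟨γ, γ.2, h⟩, fun ⟨γ, h1, h⟩ => ⟨⟨γ, h1⟩, h⟩⟩

theorem IsClosedSurface.bdd (h : IsClosedSurface Γ) :
    ∃ n : ℕ, ∀ z : ℍ, ∃ γ ∈ Γ, dist (γ • z) I < n := by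
  have := h.compact
  obtain ⟨n, hn⟩ := isCompact_univ.elim_directed_cover (fun n : ℕ => proj Γ '' ball I n)
    (fun n => isOpenMap_quotient_mk'_mul _ isOpen_ball) (fun x _ => by
      obtain ⟨z, rfl⟩ := Quotient.exists_rep x
      obtain ⟨n, hn⟩ := exists_nat_gt (dist z I)
      exact mem_iUnion.2 ⟨n, z, hn, rfl⟩)
    (Monotone.directed_le fun a b hab => image_mono (ball_subset_ball (Nat.cast_le.2 hab)))
  refine ⟨n, fun z => ?_⟩
  obtain ⟨w, hw, he⟩ := hn (mem_univ (proj Γ z))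
  obtain ⟨γ, h1, rfl⟩ := proj_eq.1 he
  exact ⟨γ, h1, hw⟩

theorem IsClosedSurface.same (h : IsClosedSurface Γ) {γ δ : SL(2, ℝ)} (hγ : γ ∈ Γ) (hδ : δ ∈ Γ)
    {z : ℍ} (hz : γ • z = δ • z) : (∀ w : ℍ, γ • w = δ • w) ∧ disc γ = disc δ := by
  rcases h.free (δ⁻¹ * γ) (Γ.mul_mem (Γ.inv_mem hδ) hγ) z (by rw [mul_smul, hz, inv_smul_smul])
    with h1 | h1
  · rw [inv_mul_eq_one] at h1
    simp [h1]
  · rw [inv_mul_eq_iff_eq_mul, mul_neg, mul_one] at h1
    refine ⟨fun w => by rw [h1, neg_smul'], ?_⟩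
    simp [h1, disc]
    ring

theorem IsClosedSurface.triv (h : IsClosedSurface Γ) {γ : SL(2, ℝ)} (hγ : γ ∈ Γ)
    {z : ℍ} (hz : γ • z = z) (w : ℍ) : γ • w = w := by
  simpa using (h.same hγ Γ.one_mem (z := z) (by simpa using hz)).1 w

theorem IsClosedSurface.nontriv (h : IsClosedSurface Γ) : ∃ γ ∈ Γ, γ • I ≠ I := by
  obtain ⟨n, hn⟩ := h.bdd
  obtain ⟨γ, h1, h2⟩ := hn (ax n)
  refine ⟨γ, h1, fun h3 => ?_⟩
  rw [h.triv h1 h3, ← ax_zero, dist_ax] at h2
  simp at h2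

theorem IsClosedSurface.sys_pos (h : IsClosedSurface Γ) :
    ∃ r > 0, ∀ γ ∈ Γ, ∀ z : ℍ, γ • z ≠ z → r ≤ dist z (γ • z) := by
  have := h.discrete
  obtain ⟨n, hn⟩ := h.bdd
  have hK := isCompact_closedBall I ((n : ℝ) + 1)
  have hf := (finite_disjoint_inter_image (Γ := Γ) hK hK).inter_of_left {γ | γ.1 • I ≠ I}
  obtain ⟨r, hr, H⟩ := (hf.isCompact_biUnion (f := fun γ => (fun z => dist z (γ.1 • z)) ''
    closedBall I ((n : ℝ) + 1)) fun γ _ => hK.image (by fun_prop)).exists_forall_le'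
    continuousOn_id (a := 0) (by
      simp only [mem_iUnion]
      rintro _ ⟨γ, h1, z, -, rfl⟩
      exact dist_pos.2 fun h2 => h1.2 (h.triv γ.2 h2.symm I))
  refine ⟨min r 1, by positivity, fun γ hγ z hz => not_lt.1 fun hlt => ?_⟩
  obtain ⟨δ, h1, h2⟩ := hn z
  have h3 : δ * γ * δ⁻¹ ∈ Γ := Γ.mul_mem (Γ.mul_mem h1 hγ) (Γ.inv_mem h1)
  have h4 : (δ * γ * δ⁻¹) • δ • z = δ • γ • z := by rw [mul_smul, mul_smul, inv_smul_smul]
  have h5 : δ • z ∈ closedBall I ((n : ℝ) + 1) := mem_closedBall.2 (by linarith)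
  have h6 := dist_triangle (δ • γ • z) (δ • z) I
  rw [dist_smul, dist_comm (γ • z)] at h6
  have h7 := H _ (mem_biUnion (x := ⟨_, h3⟩) ⟨⟨δ • γ • z, ⟨_, h5, h4⟩,
    mem_closedBall.2 (by linarith [min_le_right r 1])⟩, fun h8 => hz (by
      have := h.triv h3 h8 (δ • z)
      rwa [h4, smul_left_cancel_iff] at this)⟩ ⟨_, h5, rfl⟩)
  simp only [id, h4, dist_smul] at h7
  linarith [min_le_left r 1]

/-- `R` is a positive lower bound for the displacements -/
def Sys (Γ : Subgroup SL(2, ℝ)) (R : ℝ) : Prop :=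
  0 < R ∧ ∀ γ ∈ Γ, ∀ z : ℍ, γ • z ≠ z → R ≤ dist z (γ • z)

theorem IsClosedSurface.exists_sys (h : IsClosedSurface Γ) : ∃ R, Sys Γ R ∧
    ∀ l, R < l → ∃ γ ∈ Γ, ∃ z : ℍ, γ • z ≠ z ∧ dist z (γ • z) < l := by
  obtain ⟨r, hr, H⟩ := h.sys_pos
  obtain ⟨γ, h1, h2⟩ := h.nontriv
  have hne : {d | ∃ γ ∈ Γ, ∃ z : ℍ, γ • z ≠ z ∧ dist z (γ • z) = d}.Nonempty :=
    ⟨_, γ, h1, I, h2, rfl⟩
  have hb : r ∈ lowerBounds {d | ∃ γ ∈ Γ, ∃ z : ℍ, γ • z ≠ z ∧ dist z (γ • z) = d} := by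
    rintro _ ⟨γ, h1, z, h2, rfl⟩
    exact H γ h1 z h2
  refine ⟨_, ⟨hr.trans_le (le_csInf hne hb), fun γ h1 z h2 =>
    csInf_le ⟨r, hb⟩ ⟨γ, h1, z, h2, rfl⟩⟩, fun l hl => ?_⟩
  obtain ⟨_, ⟨γ, h1, z, h2, rfl⟩, h3⟩ := exists_lt_of_csInf_lt hne hl
  exact ⟨γ, h1, z, h2, h3⟩

theorem IsClosedSurface.disc_pos (h : IsClosedSurface Γ) :
    ∃ m > 0, ∀ γ ∈ Γ, ∀ z : ℍ, γ • z ≠ z → m ≤ disc γ := by
  obtain ⟨R, ⟨h0, hR⟩, -⟩ := h.exists_sys
  have h1 : 0 < 2 * Real.cosh R - 2 := by linarith [Real.one_lt_cosh.2 h0.ne']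
  refine ⟨_, h1, fun γ hγ z hz => le_disc h1 fun w => ?_⟩
  linarith [cosh_mono h0.le (hR γ hγ w fun h2 => hz (h.triv hγ h2 z)), dp.eq_1 γ w]

theorem IsClosedSurface.disc_nonneg (h : IsClosedSurface Γ) {γ : SL(2, ℝ)} (hγ : γ ∈ Γ) :
    0 ≤ disc γ := by
  obtain ⟨m, h0, hm⟩ := h.disc_pos
  by_cases h1 : γ • I = I
  · rw [(h.same hγ Γ.one_mem (z := I) (by simpa using h1)).2]
    simp [disc]
  · exact h0.le.trans (hm γ hγ I h1)

theorem near_min {ι : Type} {p : ι → Prop} {f : ι → ℝ} {b : ℝ} (hb : 0 < b)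
    (h : ∀ i, p i → b ≤ f i) (hne : ∃ i, p i) : ∃ i, p i ∧ ∀ j, p j → f i < 2 * f j := by
  have h1 : (f '' {i | p i}).Nonempty := hne.elim fun i hi => ⟨_, i, hi, rfl⟩
  have h2 : b ∈ lowerBounds (f '' {i | p i}) := by
    rintro _ ⟨i, hi, rfl⟩
    exact h i hi
  have h3 := le_csInf h1 h2
  obtain ⟨_, ⟨i, hi, rfl⟩, h4⟩ := exists_lt_of_csInf_lt h1 (b := 2 * sInf (f '' {i | p i}))
    (by linarith)
  exact ⟨i, hi, fun j hj => by linarith [csInf_le ⟨b, h2⟩ (mem_image_of_mem f hj)]⟩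

/-- the thick part is not empty -/
theorem IsClosedSurface.thick (h : IsClosedSurface Γ) :
    ∃ y : ℍ, ∀ γ ∈ Γ, γ • y ≠ y → 1 / 400 ≤ dp γ y := by
  obtain ⟨m, h0, hm⟩ := h.disc_pos
  obtain ⟨γ₀, hγ₀, hn⟩ := h.nontriv
  obtain ⟨B, ⟨hB, hBI⟩, HB⟩ := near_min (p := fun γ => γ ∈ Γ ∧ γ • I ≠ I) h0
    (fun γ hγ => hm γ hγ.1 I hγ.2) ⟨γ₀, hγ₀, hn⟩
  rcases le_total (1 / 100) (disc B) with h1 | h1
  · exact ⟨I, fun γ hγ hI => by linarith [HB γ ⟨hγ, hI⟩, disc_le γ I]⟩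
  have hB0 := h0.trans_le (hm B hB I hBI)
  obtain ⟨y, hy⟩ := exists_dp hB0 h1
  obtain ⟨A, ⟨hA, hAy⟩, HA⟩ := near_min (p := fun γ => γ ∈ Γ ∧ γ • y ≠ y) (f := fun γ => dp γ y) h0
    (fun γ hγ => (hm γ hγ.1 y hγ.2).trans (disc_le γ y))
    ⟨γ₀, hγ₀, fun h2 => hn (h.triv hγ₀ h2 I)⟩
  refine ⟨y, fun γ hγ hγy => not_lt.1 fun hlt => ?_⟩
  have h2 := HA γ ⟨hγ, hγy⟩
  have h3 := (h0.trans_le (hm A hA y hAy)).trans_le (disc_le A y)
  obtain ⟨k, rfl⟩ := MulAction.exists_smul_eq SL(2, ℝ) I y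
  have hC : (B * A)⁻¹ * (A * B) ∈ Γ := Γ.mul_mem (Γ.inv_mem (Γ.mul_mem hB hA)) (Γ.mul_mem hA hB)
  by_cases h4 : ((B * A)⁻¹ * (A * B)) • k • I = k • I
  · rcases h.free _ hC _ h4 with h5 | h5
    · have h6 := commute_I (A := k⁻¹ * A * k) (B := k⁻¹ * B * k) (by
        rw [inv_mul_eq_one] at h5
        simp only [mul_assoc, mul_inv_cancel_left]
        rw [← mul_assoc A, ← h5, mul_assoc])
      rw [dp_conj, dp_conj, disc_conj, disc_conj, hy] at h6
      have h7 := HB A ⟨hA, fun h7 => hAy (h.triv hA h7 _)⟩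
      nlinarith
    · have h6 := h.disc_nonneg (Γ.mul_mem hA hB)
      rw [inv_mul_eq_iff_eq_mul, mul_neg, mul_one] at h5
      have h7 := congrArg (fun M : SL(2, ℝ) => (M : Matrix (Fin 2) (Fin 2) ℝ).trace) h5
      simp only [Matrix.SpecialLinearGroup.coe_neg, Matrix.SpecialLinearGroup.coe_mul,
        Matrix.trace_neg] at h7
      rw [Matrix.trace_mul_comm B.1] at h7
      rw [disc_tr, Matrix.SpecialLinearGroup.coe_mul] at h6
      nlinarith
  · have h5 := HA _ ⟨hC, h4⟩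
    have h6 := comm_I (A := k⁻¹ * A * k) (B := k⁻¹ * B * k)
      (by rw [disc_conj]; exact h.disc_nonneg hA) (by rw [disc_conj]; exact hB0.le)
      (by rw [dp_conj]; linarith) (by rw [dp_conj]; linarith)
    rw [show (k⁻¹ * B * k * (k⁻¹ * A * k))⁻¹ * (k⁻¹ * A * k * (k⁻¹ * B * k)) =
      k⁻¹ * ((B * A)⁻¹ * (A * B)) * k by group, dp_conj, dp_conj, dp_conj, hy] at h6
    linarith

theorem Sys.transport {R K : ℝ} (hR : Sys Γ R) (hK : QCHomogeneous Γ K) {γ : SL(2, ℝ)}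
    (hγ : γ ∈ Γ) (z₀ z : ℍ) : ∃ φ : ℍ ≃ₜ ℍ, IsQC K φ ∧ ∃ γ' ∈ Γ,
      dist z (γ' • z) = dist (φ z₀) (φ (γ • z₀)) ∧
      ∀ w, ∃ w' : ℍ, dist w' (γ' • w') = dist (φ w) (φ (γ • w)) := by
  obtain ⟨f, φ, h1, h2, h3⟩ := hK (proj Γ z₀) (proj Γ z)
  have h4 : ∀ w, proj Γ (φ (γ • w)) = proj Γ (φ w) := fun w => by
    rw [← h2, ← h2, proj_eq.2 ⟨γ, hγ, rfl⟩]
  obtain ⟨β, hβ, h5⟩ := proj_eq.1 (h4 z₀)
  obtain ⟨δ, hδ, rfl⟩ := proj_eq.1 (h3.symm.trans (h2 z₀))
  have h6 : ∀ w, β • φ w ≠ φ (γ • w) → R ≤ dist (β • φ w) (φ (γ • w)) := fun w hw => by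
    obtain ⟨α, hα, h7⟩ := proj_eq.1 ((h4 w).trans (proj_eq.2 ⟨β, hβ, rfl⟩).symm)
    rw [← h7] at hw ⊢
    exact hR.2 α hα _ hw.symm
  have h7 : ∀ w, β • φ w = φ (γ • w) := fun w => by
    by_contra hw
    obtain ⟨v, hv⟩ := intermediate_value_univ z₀ w (f := fun w => dist (β • φ w) (φ (γ • w)))
      (by fun_prop) (show R / 2 ∈ _ from
        ⟨by simp [h5]; linarith [hR.1], by linarith [hR.1, h6 w hw]⟩)
    have := h6 v fun h8 => by simp [h8] at hv; linarith [hR.1]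
    linarith [hR.1]
  have h8 : ∀ w, dist (δ • φ w) ((δ * β * δ⁻¹) • δ • φ w) = dist (φ w) (φ (γ • w)) := fun w => by
    rw [mul_smul, mul_smul, inv_smul_smul, dist_smul, h7]
  exact ⟨φ, h1, _, Γ.mul_mem (Γ.mul_mem hδ hβ) (Γ.inv_mem hδ), h8 z₀, fun w => ⟨_, h8 w⟩⟩

end Pool.Agent.MP_7dc785_an

end

-- part MP_7dc785_an.Count
section

/-!
Counting thin strips around almost systolic geodesics.
-/

namespace Pool.Agent.MP_7dc785_an

open Set MeasureTheory Metric Filter Topology UpperHalfPlane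
open scoped MatrixGroups ENNReal NNReal

variable {Γ : Subgroup SL(2, ℝ)}

/-- the area of the quotient: the least area of a set meeting every orbit -/
noncomputable def area (Γ : Subgroup SL(2, ℝ)) : ℝ≥0∞ :=
  ⨅ (F : Set ℍ) (_ : proj Γ '' F = univ), volume F

/-- the orbit of `i` -/
def orb (Γ : Subgroup SL(2, ℝ)) : Set ℍ := {p | ∃ γ ∈ Γ, γ • I = p}

theorem Sys.disj {R : ℝ} (hR : Sys Γ R) : (orb Γ).PairwiseDisjoint fun p => ball p (R / 2) := by
  rintro _ ⟨γ, hγ, rfl⟩ _ ⟨δ, hδ, rfl⟩ hne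
  have h1 : (δ * γ⁻¹) • γ • I = δ • I := by rw [mul_smul, inv_smul_smul]
  have h2 := hR.2 _ (Γ.mul_mem hδ (Γ.inv_mem hγ)) (γ • I) (by rw [h1]; exact hne.symm)
  rw [h1] at h2
  exact ball_disjoint_ball (by linarith)

theorem Sys.countable {R : ℝ} (hR : Sys Γ R) : (orb Γ).Countable :=
  hR.disj.countable_of_isOpen (fun _ _ => isOpen_ball) fun _ _ => nonempty_ball.2 (half_pos hR.1)

theorem IsClosedSurface.rep (h : IsClosedSurface Γ) : ∃ G : ℍ → SL(2, ℝ), ∀ γ ∈ Γ,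
    G (γ • I) ∈ Γ ∧ (∀ z : ℍ, G (γ • I) • z = γ • z) ∧ disc (G (γ • I)) = disc γ := by
  choose! G h1 h2 using fun p (hp : p ∈ orb Γ) => hp
  exact ⟨G, fun γ hγ => ⟨h1 _ ⟨γ, hγ, rfl⟩, h.same (h1 _ ⟨γ, hγ, rfl⟩) hγ (h2 _ ⟨γ, hγ, rfl⟩)⟩⟩

theorem IsClosedSurface.ball_le (h : IsClosedSurface Γ) {R : ℝ} (hR : Sys Γ R) :
    volume (ball I (R / 2)) ≤ area Γ := by
  refine le_iInf₂ fun F hF => ?_
  obtain ⟨G, hG⟩ := h.rep
  have hsub : ball I (R / 2) ⊆
      ⋃ p ∈ orb Γ, ((G p)⁻¹ • ·) '' (toMeasurable volume F ∩ ball p (R / 2)) := fun z hz => by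
    obtain ⟨w, hw, he⟩ := hF.ge (mem_univ (proj Γ z))
    obtain ⟨γ, hγ, rfl⟩ := proj_eq.1 he
    refine mem_biUnion ⟨γ, hγ, rfl⟩ ⟨γ • z, ⟨subset_toMeasurable _ _ hw, ?_⟩, ?_⟩
    · rwa [mem_ball, dist_smul]
    · exact inv_smul_eq_iff.2 ((hG γ hγ).2.1 z).symm
  refine (measure_mono hsub).trans ((measure_biUnion_le _ hR.countable _).trans ?_)
  simp only [vol_smul]
  rw [← measure_biUnion hR.countable (hR.disj.mono fun _ => inter_subset_right)
    fun _ _ => (measurableSet_toMeasurable _ _).inter measurableSet_ball, ← measure_toMeasurable F]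
  exact measure_mono (iUnion₂_subset fun _ _ => inter_subset_left)

theorem Sys.count {R s : ℝ} (hR : Sys Γ R) (hs : 0 < s) (hsR : s ≤ R / 2) {J : Set ℍ}
    (hJ : J ⊆ orb Γ) (hd : ∀ p ∈ J, dist I p ≤ R + 3) :
    ∑' _ : J, volume (ball I s) ≤ ENNReal.ofReal (48 * Real.exp (R / 2 + 3 + 2 * s)) := by
  choose g h1 h2 using fun p => exists_norm I p
  have h3 : ∀ p, ball (g p • ax (dist I p - R / 2 + s)) s ⊆ ball p (R / 2) := fun p => by
    refine ball_subset_ball' ?_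
    nth_rw 3 [← h2 p]
    rw [dist_smul, dist_ax, abs_of_nonpos] <;> linarith
  rw [tsum_congr fun p : J => (vol_ball (g p • ax (dist I p - R / 2 + s)) s).symm,
    ← measure_biUnion (f := fun p => ball (g p • ax (dist I p - R / 2 + s)) s)
      (hR.countable.mono hJ) ((hR.disj.subset hJ).mono h3) fun _ _ => measurableSet_ball]
  refine (measure_mono (iUnion₂_subset fun p hp => ?_)).trans (vol_closedBall_le _)
  refine (ball_subset_ball' ?_).trans ball_subset_closedBall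
  nth_rw 2 [← h1 p]
  rw [← ax_zero, dist_smul, dist_ax, ax_zero]
  have := abs_le.2 (show -(R / 2 + 3 + s) ≤ dist I p - R / 2 + s - 0 ∧ _ ≤ R / 2 + 3 + s from
    ⟨by linarith [dist_nonneg (x := I) (y := p)], by linarith [hd p hp]⟩)
  linarith

/-- a small rectangle -/
def rect : Set (ℝ × ℝ) := Icc (-(1 / 20)) (1 / 20) ×ˢ Icc 1 (21 / 20)

theorem slice_le {s : Set ℝ} {w : ℝ} (h : ∀ x ∈ s, ∀ y ∈ s, (x - y) ^ 2 ≤ w ^ 2) (hw : 0 ≤ w) :
    volume s ≤ ENNReal.ofReal w :=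
  (Real.volume_le_diam s).trans (ediam_le fun x hx y hy => by
    rw [edist_dist]
    exact ENNReal.ofReal_le_ofReal (abs_le_of_sq_le_sq (h x hx y hy) hw))

theorem thin {E : Set (ℝ × ℝ)} (hE : MeasurableSet E) (hr : E ⊆ rect) {w : ℝ} (hw : 0 ≤ w)
    (h : (∀ x x' y, (x, y) ∈ E → (x', y) ∈ E → (x - x') ^ 2 ≤ w ^ 2) ∨
      ∀ x y y', (x, y) ∈ E → (x, y') ∈ E → (y - y') ^ 2 ≤ w ^ 2) :
    volume E ≤ ENNReal.ofReal w := by
  have key : ∀ (f : ℝ → ℝ≥0∞) (a b : ℝ), b - a ≤ 1 → (∀ t, f t ≤ ENNReal.ofReal w) →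
      (∀ t ∉ Icc a b, f t = 0) → ∫⁻ t, f t ≤ ENNReal.ofReal w := fun f a b h1 h2 h3 => by
    rw [← setLIntegral_eq_of_support_subset (s := Icc a b) fun t ht =>
      by_contra fun h4 => ht (h3 t h4)]
    refine (lintegral_mono h2).trans ?_
    rw [setLIntegral_const, Real.volume_Icc]
    exact mul_le_of_le_one_right' (ENNReal.ofReal_le_one.2 h1)
  rcases h with h | h
  · rw [Measure.volume_eq_prod, Measure.prod_apply_symm hE]
    refine key _ 1 (21 / 20) (by norm_num) (fun y => slice_le (fun x hx x' hx' => h x x' y hx hx') hw)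
      fun y hy => ?_
    exact measure_mono_null (fun x hx => hy (hr hx).2) measure_empty
  · rw [Measure.volume_eq_prod, Measure.prod_apply hE]
    refine key _ (-(1 / 20)) (1 / 20) (by norm_num)
      (fun x => slice_le (fun y hy y' hy' => h x y y' hy hy') hw) fun x hx => ?_
    exact measure_mono_null (fun y hy => hx (hr hy).1) measure_empty

theorem slope {g : SL(2, ℝ)} (h : 0 ≤ disc g) :
    (∀ x x' y, (x, y) ∈ rect → (x', y) ∈ rect →
      dp g I * (x - x') ^ 2 ≤ 9 * (tw g x y - tw g x' y) ^ 2) ∨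
    ∀ x y y', (x, y) ∈ rect → (x, y') ∈ rect →
      dp g I * (y - y') ^ 2 ≤ 9 * (tw g x y - tw g x y') ^ 2 := by
  simp only [dp_I, disc, tw, rect, mem_prod, mem_Icc] at *
  generalize g 0 0 = a, g 0 1 = b, g 1 0 = c, g 1 1 = d at *
  have hc : c ^ 2 ≤ (a - d) ^ 2 + (b + c) ^ 2 := by linarith [sq_nonneg b, sq_nonneg (a - d)]
  obtain ⟨P, hP⟩ : ∃ P, P = (a - d) ^ 2 + (b + c) ^ 2 := ⟨_, rfl⟩
  have h0 : 0 ≤ P := by rw [hP]; positivity
  rw [← hP] at hc ⊢
  refine (le_total ((b + c) ^ 2) ((a - d) ^ 2)).imp (fun h1 x x' y hx hx' => ?_)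
    fun h1 x y y' hy hy' => ?_
  · have hy : 0 < y := by linarith
    have h2 : c ^ 2 * (x + x') ^ 2 ≤ P * (1 / 100) :=
      mul_le_mul hc (by nlinarith) (sq_nonneg _) h0
    have h3 : P * y ^ 2 ≤ P * 2 := mul_le_mul_of_nonneg_left (by nlinarith) h0
    have h4 : P * y ^ 2 ≤ 9 * (c * (x + x') + (d - a)) ^ 2 := by
      linarith [sq_nonneg (2 * c * (x + x') + (d - a))]
    rw [← sub_div, div_pow, ← mul_div_assoc, le_div_iff₀ (by positivity)]
    linarith [mul_le_mul_of_nonneg_right h4 (sq_nonneg (x - x'))]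
  · have h2 : 0 < y := by linarith
    have h3 : 0 < y' := by linarith
    have h4 : 1 ≤ y * y' := by nlinarith
    have h5 : y * y' ≤ 111 / 100 := by nlinarith
    have h6 : x ^ 2 ≤ 1 / 400 := by nlinarith
    have h7 : c ^ 2 * (y * y' - 1 - x ^ 2) ^ 2 ≤ P * (1 / 64) :=
      mul_le_mul hc (by nlinarith [sq_nonneg x]) (sq_nonneg _) h0
    have h8 : (a - d) ^ 2 * x ^ 2 ≤ P * (1 / 400) :=
      mul_le_mul (by linarith) h6 (sq_nonneg _) h0
    have h9 : P * (y * y') ^ 2 ≤ P * (3 / 2) := mul_le_mul_of_nonneg_left (by nlinarith) h0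
    have h10 : P * (y * y') ^ 2 ≤ 9 * (b + c + c * (y * y' - 1 - x ^ 2) + (a - d) * x) ^ 2 := by
      linarith [sq_nonneg (b + c + 2 * (c * (y * y' - 1 - x ^ 2) + (a - d) * x)),
        sq_nonneg (c * (y * y' - 1 - x ^ 2) - (a - d) * x)]
    rw [div_sub_div _ _ h2.ne' h3.ne', div_pow, ← mul_div_assoc, le_div_iff₀ (by positivity)]
    linarith [mul_le_mul_of_nonneg_right h10 (sq_nonneg (y - y'))]

theorem cosh_est {R η : ℝ} (hR : 0 ≤ R) (h0 : 0 ≤ η) (hη : η ≤ 1 / 2) :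
    Real.exp R ≤ 2 * Real.cosh (R + 2 - η) - 2 * Real.cosh (R + 1) ∧
    Real.exp R / 2 ≤ 2 * Real.cosh (R + 1) - 2 ∧
    2 * Real.cosh (R + 2 + η) - 2 * Real.cosh (R + 2 - η) ≤ 27 * η * Real.exp R := by
  have h1 := cosh_mono (a := R + 1 + 1 / 2) (b := R + 2 - η) (by linarith) (by linarith)
  have h2 := Real.one_le_exp hR
  have h3 := Real.exp_one_gt_d9
  have h4 := Real.exp_one_lt_d9
  have h5 := Real.quadratic_le_exp_of_nonneg (x := 1 / 2) (by norm_num)
  have h6 : Real.exp (-(R + 1)) ≤ 1 / 2 := by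
    rw [Real.exp_neg, inv_le_comm₀ (Real.exp_pos _) (by norm_num)]
    linarith [Real.add_one_le_exp (R + 1)]
  have h7 : Real.exp η ≤ 1 + 2 * η := by
    refine (Real.exp_bound_div_one_sub_of_interval h0 (by linarith)).trans ?_
    rw [div_le_iff₀ (by linarith)]
    nlinarith
  have h8 := Real.add_one_le_exp (-η)
  have h9 : Real.exp (-(R + 2 + η)) ≤ Real.exp (-(R + 2 - η)) := Real.exp_le_exp.2 (by linarith)
  have e1 : Real.exp (R + 1) = Real.exp R * Real.exp 1 := Real.exp_add _ _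
  have e2 : Real.exp (R + 2) ≤ 9 * Real.exp R := by
    rw [show R + 2 = R + 1 + 1 by ring, Real.exp_add, e1, mul_assoc, mul_comm]
    exact mul_le_mul_of_nonneg_right (by nlinarith) (by linarith)
  rw [Real.cosh_eq (_ + 1 / 2), Real.exp_add] at h1
  have e3 := mul_le_mul_of_nonneg_left h3.le (Real.exp_pos R).le
  refine ⟨?_, ?_, ?_⟩
  · rw [Real.cosh_eq (R + 1)]
    linarith [Real.exp_pos (-(R + 1 + 1 / 2)),
      mul_le_mul_of_nonneg_left h5 (Real.exp_pos (R + 1)).le]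
  · rw [Real.cosh_eq (R + 1)]
    linarith [Real.exp_pos (-(R + 1))]
  · rw [Real.cosh_eq, Real.cosh_eq, Real.exp_add, Real.exp_sub, div_eq_mul_inv (Real.exp _),
      ← Real.exp_neg η]
    linarith [mul_le_mul_of_nonneg_left e2 h0, mul_le_mul_of_nonneg_left h7 (Real.exp_pos (R + 2)).le,
      mul_le_mul_of_nonneg_left h8 (Real.exp_pos (R + 2)).le]

/-- the points of the rectangle that are moved by about `R + 2` -/
def strip (g : SL(2, ℝ)) (R η : ℝ) : Set (ℝ × ℝ) := rect ∩ {q | tw g q.1 q.2 ^ 2 + disc g ∈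
  Icc (2 * Real.cosh (R + 2 - η) - 2) (2 * Real.cosh (R + 2 + η) - 2)}

theorem vol_strip {g : SL(2, ℝ)} {R η : ℝ} (hR : 0 ≤ R) (h0 : 0 ≤ η) (hη : η ≤ 1 / 2)
    (h1 : 0 ≤ disc g) (h2 : disc g ≤ 2 * Real.cosh (R + 1) - 2) (h3 : R + 1 ≤ dist I (g • I)) :
    volume (strip g R η) ≤ ENNReal.ofReal (162 * η) := by
  obtain ⟨a1, a2, a3⟩ := cosh_est hR h0 hη
  have a4 : Real.exp R / 2 ≤ dp g I := by linarith [cosh_mono (by linarith) h3, dp.eq_1 g I]
  have hE := Real.exp_pos R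
  have key : ∀ q q' : ℝ × ℝ, q ∈ strip g R η → q' ∈ strip g R η →
      0 ≤ tw g q.1 q.2 * tw g q'.1 q'.2 → ∀ t : ℝ,
      dp g I * t ^ 2 ≤ 9 * (tw g q.1 q.2 - tw g q'.1 q'.2) ^ 2 → t ^ 2 ≤ (81 * η) ^ 2 := by
    rintro q q' ⟨-, b1, b2⟩ ⟨-, b3, b4⟩
    generalize tw g q.1 q.2 = u, tw g q'.1 q'.2 = v at *
    intro b5 t b6
    have b7 : (u ^ 2 - v ^ 2) ^ 2 ≤ (27 * η * Real.exp R) ^ 2 :=
      sq_le_sq' (by linarith) (by linarith)
    have b8 := mul_le_mul ((mul_le_mul_of_nonneg_right a4 (sq_nonneg t)).trans b6)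
      (show 2 * Real.exp R ≤ (u + v) ^ 2 by linarith) (by positivity) (by positivity)
    refine le_of_mul_le_mul_left (a := Real.exp R ^ 2) (by linarith) (by positivity)
  have hm : Measurable fun q : ℝ × ℝ => tw g q.1 q.2 := by unfold tw; fun_prop
  have hs : MeasurableSet (strip g R η) := (measurableSet_Icc.prod measurableSet_Icc).inter
    (((hm.pow_const 2).add_const _) measurableSet_Icc)
  have half : ∀ σ : ℝ, σ ≠ 0 → volume (strip g R η ∩ {q | 0 ≤ σ * tw g q.1 q.2}) ≤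
      ENNReal.ofReal (81 * η) := fun σ hσ => by
    have h4 : ∀ u v : ℝ, 0 ≤ σ * u → 0 ≤ σ * v → 0 ≤ u * v := fun u v hu hv =>
      nonneg_of_mul_nonneg_right (a := σ ^ 2) (by linarith [mul_nonneg hu hv]) (by positivity)
    exact thin (hs.inter (measurableSet_le measurable_const (hm.const_mul σ)))
      (fun q hq => hq.1.1) (by positivity) ((slope h1).imp
      (fun H x x' y hx hx' => key _ _ hx.1 hx'.1 (h4 _ _ hx.2 hx'.2) _ (H x x' y hx.1.1 hx'.1.1))
      fun H x y y' hx hx' => key _ _ hx.1 hx'.1 (h4 _ _ hx.2 hx'.2) _ (H x y y' hx.1.1 hx'.1.1))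
  refine (measure_mono fun q hq => ?_).trans ((measure_union_le _ _).trans
    ((add_le_add (half 1 one_ne_zero) (half (-1) (by norm_num))).trans_eq ?_))
  · exact (le_total 0 (tw g q.1 q.2)).imp (fun h => ⟨hq, by simpa using h⟩)
      fun h => ⟨hq, by simpa using h⟩
  · rw [← ENNReal.ofReal_add (by positivity) (by positivity)]
    congr 1
    ring

theorem IsClosedSurface.cover (h : IsClosedSurface Γ) {R s η : ℝ} (hR : Sys Γ R) (hs : 0 < s)
    (hsR : s ≤ R / 2) (h0 : 0 ≤ η) (hη : η ≤ 1 / 2) (H : ∀ z : ℍ, ∃ γ ∈ Γ,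
      dist z (γ • z) ∈ Icc (R + 2 - η) (R + 2 + η) ∧ disc γ ≤ 2 * Real.cosh (R + 1) - 2) :
    ENNReal.ofReal (1 / 200) * volume (ball I s) ≤
      ENNReal.ofReal (162 * η) * ENNReal.ofReal (48 * Real.exp (R / 2 + 3 + 2 * s)) := by
  obtain ⟨G, hG⟩ := h.rep
  obtain ⟨J, hJ⟩ : ∃ J, J = {p ∈ orb Γ | dist I p ≤ R + 3 ∧
    volume (strip (G p) R η) ≤ ENNReal.ofReal (162 * η)} := ⟨_, rfl⟩
  have hJo : J ⊆ orb Γ := hJ ▸ sep_subset _ _
  have hsub : rect ⊆ ⋃ p ∈ J, strip (G p) R η := by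
    rintro ⟨x, y⟩ hq
    obtain ⟨⟨a1, a2⟩, a3, a4⟩ : (-(1 / 20) ≤ x ∧ x ≤ 1 / 20) ∧ 1 ≤ y ∧ y ≤ 21 / 20 := hq
    obtain ⟨z, hz⟩ : ∃ z, z = pt x y (by linarith) := ⟨_, rfl⟩
    have h1 : dist z I ≤ 1 / 4 := by
      refine (dist_le_dist_coe_div_sqrt _ _).trans ((div_le_self dist_nonneg
        (Real.one_le_sqrt.2 (by simpa [hz] using a3))).trans ?_)
      rw [dist_eq_norm]
      refine (Complex.norm_le_abs_re_add_abs_im _).trans ?_
      have b1 : |x| ≤ 1 / 20 := abs_le.2 ⟨a1, a2⟩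
      have b2 : |y - 1| ≤ 1 / 20 := abs_le.2 ⟨by linarith, by linarith⟩
      simp [hz]
      linarith
    obtain ⟨γ, hγ, ⟨b1, b2⟩, b3⟩ := H z
    obtain ⟨c1, c2, c3⟩ := hG γ hγ
    have d1 := dist_triangle4 z I (γ • I) (γ • z)
    have d2 := dist_triangle4 I z (γ • z) (γ • I)
    rw [dist_smul, dist_comm I z] at d1 d2
    refine mem_biUnion (x := γ • I) (hJ ▸ ⟨⟨γ, hγ, rfl⟩, by linarith, vol_strip hR.1.le h0 hη
      (h.disc_nonneg c1) (c3 ▸ b3) (by rw [c2]; linarith)⟩) ⟨⟨⟨a1, a2⟩, a3, a4⟩, ?_⟩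
    have e := dp_eq (G (γ • I)) z
    rw [dp, c2, hz, pt_re, pt_im, ← hz] at e
    exact ⟨by linarith [cosh_mono (by linarith [hR.1]) b1],
      by linarith [cosh_mono dist_nonneg b2]⟩
  have h1 : ENNReal.ofReal (1 / 200) ≤ ∑' _ : J, ENNReal.ofReal (162 * η) := by
    refine le_trans (le_of_eq ?_) ((measure_mono hsub).trans ((measure_biUnion_le volume
      (hR.countable.mono hJo) _).trans (ENNReal.tsum_le_tsum fun p => (hJ.le p.2).2.2)))
    rw [rect, Measure.volume_eq_prod, Measure.prod_prod, Real.volume_Icc, Real.volume_Icc,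
      ← ENNReal.ofReal_mul (by norm_num)]
    norm_num
  refine (mul_le_mul_left h1 _).trans ?_
  rw [← ENNReal.tsum_mul_right, ENNReal.tsum_mul_left]
  exact mul_le_mul_right (hR.count hs hsR hJo fun p hp => (hJ.le hp).2.1) _

theorem systole_bound : ∃ c : ℝ, 0 < c ∧ ∀ Γ : Subgroup SL(2, ℝ), IsClosedSurface Γ →
    ∀ K : ℝ, QCHomogeneous Γ K → ∀ γ ∈ Γ, ∀ z : ℍ, γ • z ≠ z →
      1 + c / ((1 + dist z (γ • z)) * Real.exp (dist z (γ • z) / 2)) ≤ K := by
  obtain ⟨C, hC, HC⟩ := qc_dist (d₀ := 1 / 2000) (by norm_num)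
  obtain ⟨v, hv⟩ : ∃ v, v = (volume (ball I (1 / 4000))).toReal := ⟨_, rfl⟩
  have hfin : volume (ball I (1 / 4000)) ≠ ⊤ := measure_ball_lt_top.ne
  have hv0 : 0 < v := hv ▸ ENNReal.toReal_pos (vol_ball_pos (by norm_num)).ne' hfin
  obtain ⟨c, hc, hc1, hc2⟩ : ∃ c > 0, C * c ≤ 1 / 8 ∧
      C * c * Real.exp (3 + 2 * (1 / 4000)) ≤ v / 10 ^ 7 := by
    refine ⟨min (1 / 8) (v / 10 ^ 7 / Real.exp (3 + 2 * (1 / 4000))) / C, by positivity, ?_, ?_⟩
    · rw [mul_div_cancel₀ _ hC.ne']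
      exact min_le_left _ _
    · rw [mul_div_cancel₀ _ hC.ne', ← le_div_iff₀ (Real.exp_pos _)]
      exact min_le_right _ _
  refine ⟨c, hc, fun Γ h K hK γ hγ z hz => not_lt.1 fun hlt => ?_⟩
  obtain ⟨R, hR, hR'⟩ := h.exists_sys
  have h0 := hR.1
  have hE := Real.one_le_exp (half_pos h0).le
  obtain ⟨ε, hε⟩ : ∃ ε, ε = c / ((1 + R) * Real.exp (R / 2)) := ⟨_, rfl⟩
  have hε0 : 0 < ε := by rw [hε]; positivity
  have hKε : K ≤ 1 + ε := by
    have := hR.2 γ hγ z hz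
    refine hlt.le.trans ?_
    rw [hε]
    gcongr
  obtain ⟨t, ht⟩ : ∃ t, t = C * ε := ⟨_, rfl⟩
  have ht0 : 0 < t := by rw [ht]; positivity
  have ht1 : t * (1 + R) * Real.exp (R / 2) = C * c := by
    rw [ht, hε]
    field_simp
  have ht2 : t * (1 + R) ≤ 1 / 8 := by nlinarith [mul_pos ht0 (show 0 < 1 + R by linarith)]
  have ht3 := mul_pos ht0 h0
  have HC' := fun φ (hφ : IsQC K φ) => HC ε hε0 (by linarith) φ (hφ.mono hKε)
  rw [← ht] at HC'
  have hne : ∀ (φ : ℍ ≃ₜ ℍ) {β β' : SL(2, ℝ)} {w w' : ℍ}, β • w ≠ w →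
      dist w' (β' • w') = dist (φ w) (φ (β • w)) → β' • w' ≠ w' := fun φ β β' w w' h1 h2 h3 => by
    rw [h3, dist_self, eq_comm, dist_eq_zero] at h2
    exact h1 (φ.injective h2).symm
  have hd : 1 / 2000 ≤ R := not_lt.1 fun h1 => by
    obtain ⟨β, hβ, w, h2, h3⟩ := hR' _ h1
    obtain ⟨y, hy⟩ := h.thick
    obtain ⟨φ, hφ, β', hβ', h4, -⟩ := hR.transport hK hβ w y
    have h5 := hy β' hβ' (hne φ h2 h4)
    have h6 := cosh_mono dist_nonneg (b := 1 / 1000)
      (h4.trans_le ((HC' φ hφ _ _ _ le_rfl h3.le).trans (by linarith)))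
    have h7 := Real.exp_bound_div_one_sub_of_interval (x := 1 / 1000) (by norm_num) (by norm_num)
    have h8 := Real.cosh_add_sinh (1 / 1000)
    have h9 := Real.sinh_nonneg_iff.2 (show (0 : ℝ) ≤ 1 / 1000 by norm_num)
    rw [dp] at h5
    linarith [show (1 : ℝ) / (1 - 1 / 1000) = 1000 / 999 by norm_num]
  obtain ⟨β, hβ, w, h2, h3⟩ := hR' (R + 1 / 2) (by linarith)
  obtain ⟨m, hm, Hm⟩ := h.disc_pos
  obtain ⟨z₀, hz₀⟩ := exists_dist (hm.trans_le (Hm β hβ w h2)) (l := R + 2) (by linarith) (by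
    linarith [disc_le β w, dp.eq_1 β w, cosh_mono dist_nonneg (b := R + 2) (h3.le.trans (by linarith))])
  have h4 := h.cover hR (s := 1 / 4000) (η := 4 * t * (1 + R)) (by norm_num) (by linarith)
    (by positivity) (by linarith) fun z => by
    obtain ⟨φ, hφ, β', hβ', h4, h5⟩ := hR.transport hK hβ z₀ z
    obtain ⟨w', h6⟩ := h5 w
    have h7 := HC' φ hφ _ _ _ (by linarith) hz₀.le
    have h8 := HC' φ.symm hφ.symm _ _ _ (hd.trans (hR.2 β' hβ' z (hne φ (fun h8 => by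
      rw [h8, dist_self] at hz₀; linarith) h4))) h4.ge
    have h9 := HC' φ hφ _ _ _ (by linarith) h3.le
    rw [φ.symm_apply_apply, φ.symm_apply_apply, hz₀] at h8
    rw [← h4] at h7
    have h10 := mul_le_mul_of_nonneg_right (h7.trans (show _ ≤ 4 * (1 + R) by linarith)) ht0.le
    refine ⟨β', hβ', ⟨by linarith, by linarith⟩, ?_⟩
    linarith [disc_le β' w', dp.eq_1 β' w',
      cosh_mono dist_nonneg (b := R + 1) (h6.trans_le (h9.trans (by linarith)))]
  rw [← ENNReal.ofReal_toReal hfin, ← hv, ← ENNReal.ofReal_mul (by norm_num),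
    ← ENNReal.ofReal_mul (by positivity), ENNReal.ofReal_le_ofReal_iff (by positivity), add_assoc,
    Real.exp_add] at h4
  rw [← ht1] at hc2
  linarith

theorem genus_bound : ∃ c : ℝ, 0 < c ∧ ∀ Γ : Subgroup SL(2, ℝ), IsClosedSurface Γ →
    ∀ g : ℕ, 2 ≤ g → area Γ ≤ ENNReal.ofReal (4 * Real.pi * (g - 1)) →
      ∀ K : ℝ, QCHomogeneous Γ K → 1 + c / (g * Real.log g) ≤ K := by
  obtain ⟨c, hc, H⟩ := systole_bound
  obtain ⟨a, ha, Ha⟩ := le_vol_ball one_pos
  obtain ⟨b, hb⟩ : ∃ b, b = Real.exp (1 / 2) * (16 / a + 3) := ⟨_, rfl⟩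
  have hb0 : 0 < b := by rw [hb]; positivity
  refine ⟨c / (b * (4 + 4 * b)), by positivity, fun Γ h g hg hA K hK => ?_⟩
  obtain ⟨R, hR, hR'⟩ := h.exists_sys
  obtain ⟨γ, hγ, z, h1, h2⟩ := hR' (R + 1) (by linarith)
  have hg' : (2 : ℝ) ≤ g := by exact_mod_cast hg
  have h3 : Real.exp (R / 2) ≤ (16 / a + 3) * g := by
    have h4 : 0 < 16 / a * g := by positivity
    rcases le_total 1 (R / 2) with h5 | h5
    · have h6 := (ENNReal.ofReal_le_ofReal_iff (mul_nonneg (by positivity) (by linarith))).1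
        ((Ha _ h5).trans ((h.ball_le hR).trans hA))
      have h7 : Real.exp (R / 2) ≤ 16 / a * g := by
        rw [div_mul_eq_mul_div, le_div_iff₀ ha]
        nlinarith [Real.pi_le_four, Real.pi_pos]
      linarith
    · linarith [Real.exp_le_exp.2 h5, Real.exp_one_lt_d9]
  have h4 : Real.exp (dist z (γ • z) / 2) ≤ b * g := by
    refine (Real.exp_le_exp.2 (show _ ≤ 1 / 2 + R / 2 by linarith)).trans ?_
    rw [Real.exp_add, hb, mul_assoc]
    gcongr
  have h5 : 1 / 2 ≤ Real.log g := by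
    linarith [Real.log_two_gt_d9, Real.log_le_log two_pos hg']
  have h6 := (Real.le_log_iff_exp_le (by positivity)).2 h4
  rw [Real.log_mul hb0.ne' (by positivity)] at h6
  have h7 : 1 + dist z (γ • z) ≤ (4 + 4 * b) * Real.log g := by
    nlinarith [Real.log_le_sub_one_of_pos hb0]
  refine le_trans ?_ (H Γ h K hK γ hγ z h1)
  rw [div_div]
  exact add_le_add_right (div_le_div_of_nonneg_left hc.le (by positivity)
    ((mul_le_mul h7 h4 (by positivity) (by positivity)).trans_eq (by ring))) _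

end Pool.Agent.MP_7dc785_an

end
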